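import Mathlib

namespace Pool.Agent.Lib.MP_662923_co

/-- One growth step of the reached set `R` along the edge with code `m`. -/
def step (m R : ℕ) : ℕ := cond (Nat.beq (Nat.land R m) 0) R (Nat.lor R m)

/-- Evaluate `n` before passing it on. -/
noncomputable def force {α : Type} (n : ℕ) (f : ℕ → α) : α :=
  Nat.rec (motive := fun _ => α) (f 0) (fun k _ => f (Nat.succ k)) n

theorem force_eq {α : Type} (n : ℕ) (f : ℕ → α) : force n f = f n := by
  cases n <;> rfl

noncomputable def passF (K : List ℕ) : ℕ → ℕ :=
  List.rec (motive := fun _ => ℕ → ℕ) (fun R => R) (fun m _ ih R => force (step m R) ih) K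

noncomputable def passB (K : List ℕ) (R : ℕ) : ℕ :=
  List.rec (motive := fun _ => ℕ) R (fun m _ ih => force ih (step m)) K

theorem passF_nil (R : ℕ) : passF [] R = R := rfl
theorem passF_cons (m : ℕ) (K : List ℕ) (R : ℕ) : passF (m :: K) R = passF K (step m R) :=
  force_eq _ _
theorem passB_nil (R : ℕ) : passB [] R = R := rfl
theorem passB_cons (m : ℕ) (K : List ℕ) (R : ℕ) : passB (m :: K) R = step m (passB K R) :=
  force_eq _ _

noncomputable def round (K l : List ℕ) (R : ℕ) : ℕ :=
  force (passB K R) fun R1 => force (passF l R1) fun R2 => force (passB l R2) fun R3 => passF K R3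

theorem round_eq (K l : List ℕ) (R : ℕ) :
    round K l R = passF K (passB l (passF l (passB K R))) := by
  simp only [round, force_eq]

noncomputable def chkAux (b : Bool) (K l : List ℕ) (fuel : ℕ) : ℕ → Bool :=
  Nat.rec (motive := fun _ => ℕ → Bool) (fun _ => b)
    (fun _ ih R => force (round K l R) fun R' =>
      cond (Nat.beq R' 524287) true (cond (Nat.beq R' R) false (ih R'))) fuel

theorem chkAux_zero (b : Bool) (K l : List ℕ) (R : ℕ) : chkAux b K l 0 R = b := rfl
theorem chkAux_succ (b : Bool) (K l : List ℕ) (f R : ℕ) :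
    chkAux b K l (f + 1) R = cond (Nat.beq (round K l R) 524287) true
      (cond (Nat.beq (round K l R) R) false (chkAux b K l f (round K l R))) :=
  force_eq (round K l R) (fun R' =>
      cond (Nat.beq R' 524287) true (cond (Nat.beq R' R) false (chkAux b K l f R')))

noncomputable def chk (b : Bool) (K l : List ℕ) : Bool := chkAux b K l 5 1

/-- `cnt b l K k`: number of ways to delete `k + 1` codes of `l` so that the check succeeds. -/
noncomputable def cnt (b : Bool) (l : List ℕ) : List ℕ → ℕ → ℕ :=
  List.rec (motive := fun _ => List ℕ → ℕ → ℕ) (fun _ _ => 0)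
    (fun m l ih K k => Nat.add (ih (m :: K) k)
      (cond (chk b K l) (Nat.rec (motive := fun _ => ℕ) 1 (fun j _ => ih K j) k) 0)) l

theorem cnt_nil (b : Bool) (K : List ℕ) (k : ℕ) : cnt b [] K k = 0 := rfl
theorem cnt_cons_zero (b : Bool) (m : ℕ) (l K : List ℕ) :
    cnt b (m :: l) K 0 = cnt b l (m :: K) 0 + cond (chk b K l) 1 0 := rfl
theorem cnt_cons_succ (b : Bool) (m : ℕ) (l K : List ℕ) (k : ℕ) :
    cnt b (m :: l) K (k + 1) = cnt b l (m :: K) (k + 1) + cond (chk b K l) (cnt b l K k) 0 := rfl

/-- The codes of the edges other than the closing edge. -/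
def L0 : List ℕ := [3, 10, 5, 12, 24, 80, 40, 96, 192, 384, 2304, 576, 1536, 3072, 6144,
  266240, 10240, 24576, 278528, 34816, 98304, 196608, 393216]

end Pool.Agent.Lib.MP_662923_co
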