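import Pool.Agent.Lib.MP_662923_co.Check

namespace Pool.Agent.Lib.MP_662923_co

theorem count_a : cnt false L0 [] 3 = 2528 := by decide +kernel

theorem count_c : cnt true L0 [] 4 = 2496 := by decide +kernel

end Pool.Agent.Lib.MP_662923_co
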