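import Pool.Agent.Lib.MP_662923_co.Check

namespace Pool.Agent.Lib.MP_662923_co

theorem count_d : cnt false L0 [262145] 5 = 11040 := by decide +kernel

end Pool.Agent.Lib.MP_662923_co
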