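import Pool.Agent.Lib.MP_662923_co.Sound
import Pool.Agent.Lib.MP_662923_co.CountA
import Pool.Agent.Lib.MP_662923_co.CountB
import Pool.Agent.Lib.MP_662923_co.CountD

namespace Pool.Agent.Lib.MP_662923_co

open Finset

instance (m : ℕ) : Decidable (IsCode m) := by unfold IsCode; infer_instance

theorem L0_code : ∀ m ∈ L0, IsCode m := by decide +kernel
theorem e_code : IsCode 262145 := by decide +kernel
theorem L0_nodup : L0.Nodup := by decide +kernel
theorem e_notMem : 262145 ∉ L0 := by decide +kernel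
theorem L1_code : ∀ m ∈ 262145 :: L0, IsCode m := by decide +kernel
theorem L0_card : L0.toFinset.card = 23 := by decide +kernel

/-- All edge codes. -/
def E : Finset ℕ := (262145 :: L0).toFinset

theorem E_eq : E = insert 262145 L0.toFinset := List.toFinset_cons
theorem E_code : ∀ m ∈ E, IsCode m := fun m hm => L1_code m (List.mem_toFinset.1 hm)
theorem E_card : E.card = 24 := by decide +kernel

theorem subset_of_gr_le {S T : Finset ℕ} (hS : S ⊆ E) (h : gr S ≤ gr T) : S ⊆ T := by
  intro m hm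
  obtain ⟨a, b, hab, rfl⟩ := E_code m (hS hm)
  exact (h (show (gr S).Adj a b from ⟨hab, hm⟩)).2

theorem gr_inj {S T : Finset ℕ} (hS : S ⊆ E) (hT : T ⊆ E) (h : gr S = gr T) : S = T :=
  Subset.antisymm (subset_of_gr_le hS h.le) (subset_of_gr_le hT h.ge)

theorem exists_gr {H : SimpleGraph (Fin 19)} (h : H ≤ gr E) : ∃ T, T ⊆ E ∧ H = gr T := by
  classical
  refine ⟨E.filter fun m => ∃ u v, H.Adj u v ∧ m = code u v, filter_subset _ _, ?_⟩
  ext u v
  constructor
  · intro huv
    exact ⟨huv.ne, mem_filter.2 ⟨(h huv).2, u, v, huv, rfl⟩⟩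
  · rintro ⟨hne, hm⟩
    obtain ⟨-, a, b, hab, e⟩ := mem_filter.1 hm
    rcases code_inj hne e with ⟨rfl, rfl⟩ | ⟨rfl, rfl⟩
    · exact hab
    · exact hab.symm

theorem ncard_edgeSet {T : Finset ℕ} (hT : T ⊆ E) : (gr T).edgeSet.ncard = T.card := by
  rw [← Set.ncard_coe_finset]
  refine Set.ncard_congr (fun x _ => Sym2.lift ⟨code, code_comm⟩ x) ?_ ?_ ?_
  · intro x hx
    induction x using Sym2.ind with
    | h u v => exact hx.2
  · intro x y hx hy e
    induction x using Sym2.ind with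
    | h u v =>
      induction y using Sym2.ind with
      | h a b =>
        rcases code_inj hx.1 e with ⟨rfl, rfl⟩ | ⟨rfl, rfl⟩
        · rfl
        · exact Sym2.eq_swap
  · intro m hm
    obtain ⟨a, b, hab, rfl⟩ := E_code m (hT hm)
    exact ⟨s(a, b), ⟨hab, hm⟩, rfl⟩

theorem level_le (k : ℕ) :
    {H : SimpleGraph (Fin 19) | H ≤ gr E ∧ H.Connected ∧ H.edgeSet.ncard = k}.ncard
      ≤ (fam [] (262145 :: L0) (24 - k)).card := by
  classical
  have hsub : {H : SimpleGraph (Fin 19) | H ≤ gr E ∧ H.Connected ∧ H.edgeSet.ncard = k} ⊆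
      (fun S => gr (E \ S)) '' (fam [] (262145 :: L0) (24 - k) : Set (Finset ℕ)) := by
    rintro H ⟨h1, h2, h3⟩
    obtain ⟨T, hT, rfl⟩ := exists_gr h1
    rw [ncard_edgeSet hT] at h3
    have e : E \ (E \ T) = T := Finset.sdiff_sdiff_eq_self hT
    refine ⟨E \ T, mem_fam.2 ⟨⟨sdiff_subset, ?_⟩, ?_⟩, by simp only [e]⟩
    · rw [card_sdiff_of_subset hT, E_card, h3]
    · have : ([] : List ℕ).toFinset ∪ ((262145 :: L0).toFinset \ (E \ T)) = T := by
        rw [List.toFinset_nil, empty_union]; exact e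
      rwa [this]
  calc _ ≤ _ := Set.ncard_le_ncard hsub (Set.toFinite _)
    _ ≤ (fam [] (262145 :: L0) (24 - k) : Set (Finset ℕ)).ncard :=
        Set.ncard_image_le (Finset.finite_toSet _)
    _ = _ := Set.ncard_coe_finset _

theorem fam_le_choose (j : ℕ) : (fam [] (262145 :: L0) j).card ≤ Nat.choose 24 j := by
  classical
  unfold fam
  refine (card_filter_le _ _).trans ?_
  rw [card_powersetCard]
  exact le_of_eq (by rw [← E_card]; rfl)

theorem a_ge : 2528 ≤ (fam [] L0 4).card :=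
  count_a ▸ cnt_false_le L0 [] 3 L0_nodup L0_code (by simp)
theorem c_le : (fam [] L0 5).card ≤ 2496 :=
  count_c ▸ le_cnt_true L0 [] 4 L0_nodup L0_code (by simp)
theorem b_le : (fam [262145] L0 5).card ≤ 11008 :=
  count_b ▸ le_cnt_true L0 [262145] 4 L0_nodup L0_code (by simpa using e_code)
theorem d_ge : 11040 ≤ (fam [262145] L0 6).card :=
  count_d ▸ cnt_false_le L0 [262145] 5 L0_nodup L0_code (by simpa using e_code)

/-- Kept edge sets of the antichain. -/
noncomputable def A0 : Finset (Finset ℕ) :=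
  (fam [262145] L0 6).image (fun S => insert 262145 (L0.toFinset \ S)) ∪
    (fam [] L0 4).image (fun S => L0.toFinset \ S)

theorem e_notMem' (S : Finset ℕ) : 262145 ∉ L0.toFinset \ S := fun h =>
  e_notMem (List.mem_toFinset.1 (mem_sdiff.1 h).1)

theorem mem_A0 {T : Finset ℕ} (h : T ∈ A0) : T ⊆ E ∧ (gr T).Connected ∧
    ((262145 ∈ T ∧ T.card = 18) ∨ (262145 ∉ T ∧ T.card = 19)) := by
  rcases mem_union.1 h with h | h
  · obtain ⟨S, hS, rfl⟩ := mem_image.1 h
    obtain ⟨⟨h1, h2⟩, h3⟩ := mem_fam.1 hS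
    refine ⟨?_, ?_, Or.inl ⟨mem_insert_self _ _, ?_⟩⟩
    · rw [E_eq]; exact insert_subset_insert _ sdiff_subset
    · simpa using h3
    · rw [card_insert_of_notMem (e_notMem' S), card_sdiff_of_subset h1, L0_card, h2]
  · obtain ⟨S, hS, rfl⟩ := mem_image.1 h
    obtain ⟨⟨h1, h2⟩, h3⟩ := mem_fam.1 hS
    refine ⟨?_, ?_, Or.inr ⟨e_notMem' S, ?_⟩⟩
    · rw [E_eq]; exact sdiff_subset.trans (subset_insert _ _)
    · simpa using h3
    · rw [card_sdiff_of_subset h1, L0_card, h2]

theorem sdiff_inj {S S' : Finset ℕ} (h : S ⊆ L0.toFinset) (h' : S' ⊆ L0.toFinset)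
    (e : L0.toFinset \ S = L0.toFinset \ S') : S = S' := by
  rw [← Finset.sdiff_sdiff_eq_self h, ← Finset.sdiff_sdiff_eq_self h', e]

theorem A0_card : A0.card = (fam [262145] L0 6).card + (fam [] L0 4).card := by
  unfold A0
  rw [card_union_of_disjoint, card_image_of_injOn, card_image_of_injOn]
  · intro S hS S' hS' e
    exact sdiff_inj (mem_fam.1 hS).1.1 (mem_fam.1 hS').1.1 e
  · intro S hS S' hS' e
    apply sdiff_inj (mem_fam.1 hS).1.1 (mem_fam.1 hS').1.1
    have e' : insert 262145 (L0.toFinset \ S) = insert 262145 (L0.toFinset \ S') := e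
    rw [← erase_insert (e_notMem' S), ← erase_insert (e_notMem' S'), e']
  · rw [disjoint_left]
    intro T h1 h2
    obtain ⟨S, -, rfl⟩ := mem_image.1 h1
    obtain ⟨S', -, e⟩ := mem_image.1 h2
    exact e_notMem' S' (e ▸ mem_insert_self _ _)

theorem A_ncard : (gr '' (A0 : Set (Finset ℕ))).ncard
    = (fam [262145] L0 6).card + (fam [] L0 4).card := by
  rw [Set.InjOn.ncard_image, Set.ncard_coe_finset, A0_card]
  intro S hS T hT e
  exact gr_inj (mem_A0 hS).1 (mem_A0 hT).1 e

theorem A_antichain : IsAntichain (· ≤ ·) (gr '' (A0 : Set (Finset ℕ))) := by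
  rintro _ ⟨S, hS, rfl⟩ _ ⟨T, hT, rfl⟩ hne hle
  obtain ⟨h1, -, h2⟩ := mem_A0 hS
  obtain ⟨-, -, h3⟩ := mem_A0 hT
  have hsub : S ⊆ T := subset_of_gr_le h1 hle
  have hc := card_le_card hsub
  apply hne
  congr 1
  apply eq_of_subset_of_card_le hsub
  rcases h2 with ⟨a, b⟩ | ⟨a, b⟩ <;> rcases h3 with ⟨c, d⟩ | ⟨c, d⟩
  · omega
  · exact absurd (hsub a) c
  · omega
  · omega

theorem level_lt (k : ℕ) :
    {H : SimpleGraph (Fin 19) | H ≤ gr E ∧ H.Connected ∧ H.edgeSet.ncard = k}.ncard
      < (gr '' (A0 : Set (Finset ℕ))).ncard := by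
  rw [A_ncard]
  have ha := a_ge
  have hb := b_le
  have hc := c_le
  have hd := d_ge
  rcases lt_or_ge k 18 with hk | hk
  · have : {H : SimpleGraph (Fin 19) | H ≤ gr E ∧ H.Connected ∧ H.edgeSet.ncard = k} = ∅ := by
      rw [Set.eq_empty_iff_forall_notMem]
      rintro H ⟨-, h2, h3⟩
      have := h2.card_vert_le_card_edgeSet_add_one
      rw [Nat.card_coe_set_eq, h3] at this
      simp at this
      omega
    rw [this, Set.ncard_empty]
    omega
  · refine (level_le k).trans_lt ?_
    rcases hk.eq_or_lt with rfl | hk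
    · have : (fam [] (262145 :: L0) 6).card = (fam [262145] L0 6).card + (fam [] L0 5).card :=
        fam_cons [] L0 262145 5 e_notMem
      show (fam [] (262145 :: L0) 6).card < _
      omega
    · rcases (show 19 ≤ k from hk).eq_or_lt with rfl | hk
      · have : (fam [] (262145 :: L0) 5).card
            = (fam [262145] L0 5).card + (fam [] L0 4).card :=
          fam_cons [] L0 262145 4 e_notMem
        show (fam [] (262145 :: L0) 5).card < _
        omega
      · have h1 := fam_le_choose (24 - k)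
        have h2 : 24 - k ≤ 4 := by omega
        have h3 : ∀ j ≤ 4, Nat.choose 24 j ≤ 10626 := by decide +kernel
        have := h3 _ h2
        omega

theorem G_connected : (gr E).Connected := by
  have hpos : 0 < A0.card := by
    rw [A0_card]; have := a_ge; omega
  obtain ⟨T, hT⟩ := card_pos.1 hpos
  exact (mem_A0 hT).2.1.mono (gr_mono (mem_A0 hT).1)

end Pool.Agent.Lib.MP_662923_co
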