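import Pool.Agent.Lib.MP_662923_co.Peak

/-!
Counting lemmas: levels of a product with a Boolean lattice, subsets avoiding disjoint pairs, and
the mean sizes in the necklace model.
-/

set_option autoImplicit false

namespace Pool.Agent.Lib.MP_662923_co

open Finset

theorem card_level {α β : Type} [DecidableEq α] [DecidableEq β] (U : Finset α) (r : α → ℕ)
    (E : Finset β) (j : ℤ) :
    (((U ×ˢ E.powerset).filter fun p => ((r p.1 + p.2.card : ℕ) : ℤ) = j).card : ℝ) =
      ∑ u ∈ U, ch E.card (j - r u) := by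
  rw [card_filter, sum_product]
  push_cast
  refine sum_congr rfl fun u _ => ?_
  by_cases h : 0 ≤ j - r u
  · obtain ⟨m, hm⟩ := Int.eq_ofNat_of_zero_le h
    rw [hm, ch_nat, ← card_powersetCard, powersetCard_eq_filter, card_filter]
    push_cast
    refine sum_congr rfl fun F _ => ?_
    exact if_congr (by omega) rfl rfl
  · rw [ch_neg _ (not_le.1 h)]
    exact sum_eq_zero fun F _ => if_neg (by omega)

theorem avoid_step {β : Type} [DecidableEq β] {E : Finset β} {p q : β} (hp : p ∈ E) (hq : q ∈ E)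
    (hpq : p ≠ q) (Φ : Finset β → Prop) [DecidablePred Φ] (h1 : ∀ F, Φ (insert p F) ↔ Φ F)
    (h2 : ∀ F, Φ (insert q F) ↔ Φ F) :
    4 * (E.powerset.filter fun F => Φ F ∧ ¬ (p ∈ F ∧ q ∈ F)).card =
      3 * (E.powerset.filter Φ).card := by
  obtain ⟨E', hp', hq', rfl⟩ : ∃ E' : Finset β, p ∉ insert q E' ∧ q ∉ E' ∧
      E = insert p (insert q E') := by
    refine ⟨(E.erase p).erase q, ?_, notMem_erase _ _, ?_⟩
    · rw [insert_erase (mem_erase.2 ⟨hpq.symm, hq⟩)]
      exact notMem_erase _ _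
    · rw [insert_erase (mem_erase.2 ⟨hpq.symm, hq⟩), insert_erase hp]
  have hp'' : p ∉ E' := fun h => hp' (mem_insert_of_mem h)
  rw [card_filter, card_filter, sum_powerset_insert hp', sum_powerset_insert hp',
    sum_powerset_insert hq', sum_powerset_insert hq', sum_powerset_insert hq',
    sum_powerset_insert hq', ← sum_add_distrib, ← sum_add_distrib, ← sum_add_distrib,
    ← sum_add_distrib, ← sum_add_distrib, ← sum_add_distrib, mul_sum, mul_sum]
  refine sum_congr rfl fun F hF => ?_
  have g1 : p ∉ F := fun h => hp'' (mem_powerset.1 hF h)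
  have g2 : q ∉ F := fun h => hq' (mem_powerset.1 hF h)
  by_cases h : Φ F <;> simp [h1, h2, h, g1, g2, hpq, hpq.symm]

theorem avoid_pairs {β γ : Type} [DecidableEq β] [DecidableEq γ] (E : Finset β) (p q : γ → β)
    (I : Finset γ) (hp : ∀ w ∈ I, ∀ w' ∈ I, p w = p w' → w = w')
    (hq : ∀ w ∈ I, ∀ w' ∈ I, q w = q w' → w = w') (hE : ∀ w ∈ I, p w ∈ E ∧ q w ∈ E)
    (hx : ∀ w ∈ I, ∀ w' ∈ I, p w ≠ q w') :
    4 ^ I.card * (E.powerset.filter fun F => ∀ w ∈ I, ¬ (p w ∈ F ∧ q w ∈ F)).card =
      3 ^ I.card * 2 ^ E.card := by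
  induction I using Finset.induction_on with
  | empty => simp
  | insert w I hw ih =>
    have m1 : w ∈ insert w I := mem_insert_self _ _
    have m2 : ∀ x ∈ I, x ∈ insert w I := fun x hx => mem_insert_of_mem hx
    have ih' := ih (fun a ha b hb => hp a (m2 a ha) b (m2 b hb))
      (fun a ha b hb => hq a (m2 a ha) b (m2 b hb)) (fun a ha => hE a (m2 a ha))
      (fun a ha b hb => hx a (m2 a ha) b (m2 b hb))
    have hne : ∀ x ∈ I, x ≠ w := fun x hx e => hw (e ▸ hx)
    have step := avoid_step (hE w m1).1 (hE w m1).2 (hx w m1 w m1)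
      (fun F => ∀ x ∈ I, ¬ (p x ∈ F ∧ q x ∈ F))
      (fun F => forall₂_congr fun x hx' => by
        have g1 : p x ≠ p w := fun e => hne x hx' (hp x (m2 x hx') w m1 e)
        have g2 : q x ≠ p w := (hx w m1 x (m2 x hx')).symm
        simp [g1, g2])
      (fun F => forall₂_congr fun x hx' => by
        have g1 : q x ≠ q w := fun e => hne x hx' (hq x (m2 x hx') w m1 e)
        have g2 : p x ≠ q w := hx x (m2 x hx') w m1
        simp [g1, g2])
    have e : (E.powerset.filter fun F => ∀ x ∈ insert w I, ¬ (p x ∈ F ∧ q x ∈ F)) =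
        E.powerset.filter fun F => (∀ x ∈ I, ¬ (p x ∈ F ∧ q x ∈ F)) ∧ ¬ (p w ∈ F ∧ q w ∈ F) := by
      refine filter_congr fun F _ => ?_
      rw [forall_mem_insert, and_comm]
    rw [card_insert_of_notMem hw, pow_succ, pow_succ, e, mul_assoc]
    have step' : 4 * (E.powerset.filter fun F =>
        (∀ x ∈ I, ¬ (p x ∈ F ∧ q x ∈ F)) ∧ ¬ (p w ∈ F ∧ q w ∈ F)).card =
        3 * (E.powerset.filter fun F => ∀ x ∈ I, ¬ (p x ∈ F ∧ q x ∈ F)).card := by
      convert step
    rw [step', mul_left_comm, ih']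
    ring

theorem sum_piFinset_eval {σ τ : Type} [Fintype σ] [DecidableEq σ] [DecidableEq τ]
    (t : σ → Finset τ) (f : τ → ℕ) (i : σ) :
    (t i).card * ∑ M ∈ Fintype.piFinset t, f (M i) =
      (∑ c ∈ t i, f c) * (Fintype.piFinset t).card := by
  have h := prod_univ_sum t fun j c => if j = i then f c else 1
  have h1 : ∀ M : σ → τ, ∏ j, (if j = i then f (M j) else 1) = f (M i) := fun M => by
    rw [prod_ite_eq' univ i fun j => f (M j), if_pos (mem_univ i)]
  simp only [h1] at h
  rw [← h, Fintype.card_piFinset, ← mul_prod_erase univ _ (mem_univ i),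
    ← mul_prod_erase univ (fun j => (t j).card) (mem_univ i)]
  have h2 : ∏ j ∈ univ.erase i, ∑ c ∈ t j, (if j = i then f c else 1) =
      ∏ j ∈ univ.erase i, (t j).card :=
    prod_congr rfl fun j hj => by simp [ne_of_mem_erase hj]
  rw [h2]
  simp only [if_true]
  ring

section Necklace

variable (σ lam : Type) [Fintype σ] [DecidableEq σ] [Fintype lam] [DecidableEq lam]

/-- The non-empty sets of lanes. -/
def NE : Finset (Finset lam) := univ.erase ∅

/-- All links are open. -/
def allOpen : Finset (σ → Finset lam) := Fintype.piFinset fun _ => NE lam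

/-- Exactly the link `i` is closed. -/
def oneClosed (i : σ) : Finset (σ → Finset lam) :=
  Fintype.piFinset (Function.update (fun _ => NE lam) i {∅})

/-- The link data without the closing edge. -/
def U0 : Finset ((σ → Finset lam) × Bool) := allOpen σ lam ×ˢ {false}

/-- The link data that connect the layers. -/
def U1 : Finset ((σ → Finset lam) × Bool) :=
  U0 σ lam ∪ (allOpen σ lam ∪ univ.biUnion (oneClosed σ lam)) ×ˢ {true}

variable {σ lam}

/-- The number of link edges. -/
def rk (d : (σ → Finset lam) × Bool) : ℕ := ∑ i, (d.1 i).card + d.2.toNat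

theorem mem_allOpen {M : σ → Finset lam} : M ∈ allOpen σ lam ↔ ∀ i, M i ≠ ∅ := by
  simp [allOpen, NE]

theorem mem_oneClosed {M : σ → Finset lam} {i : σ} :
    M ∈ oneClosed σ lam i ↔ M i = ∅ ∧ ∀ j, j ≠ i → M j ≠ ∅ := by
  rw [oneClosed, Fintype.mem_piFinset]
  constructor
  · intro h
    refine ⟨by simpa using h i, fun j hj => ?_⟩
    have := h j
    rw [Function.update_of_ne hj] at this
    simpa [NE] using this
  · rintro ⟨h1, h2⟩ j
    by_cases hj : j = i
    · subst hj; simpa using h1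
    · rw [Function.update_of_ne hj]
      simpa [NE] using h2 j hj

theorem mem_U0 {d : (σ → Finset lam) × Bool} :
    d ∈ U0 σ lam ↔ (∀ i, d.1 i ≠ ∅) ∧ d.2 = false := by
  rw [U0, mem_product, mem_allOpen, mem_singleton]

theorem mem_U1 {d : (σ → Finset lam) × Bool} :
    d ∈ U1 σ lam ↔ (∀ i, d.1 i ≠ ∅) ∨ (d.2 = true ∧ ∃ i, d.1 i = ∅ ∧ ∀ j, j ≠ i → d.1 j ≠ ∅) := by
  rw [U1, mem_union, mem_U0, mem_product, mem_union, mem_allOpen, mem_singleton, mem_biUnion]
  simp only [mem_univ, true_and, mem_oneClosed]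
  cases d.2 <;> simp

theorem sum_U1 (f : (σ → Finset lam) × Bool → ℕ) :
    ∑ d ∈ U1 σ lam, f d = ∑ M ∈ allOpen σ lam, f (M, false) + (∑ M ∈ allOpen σ lam, f (M, true) +
      ∑ i, ∑ M ∈ oneClosed σ lam i, f (M, true)) := by
  rw [U1, sum_union, U0, sum_product, sum_product, sum_union, sum_biUnion]
  · simp only [sum_singleton]
  · intro i _ j _ hij
    refine disjoint_left.2 fun M h1 h2 => ?_
    exact (mem_oneClosed.1 h2).2 i hij (mem_oneClosed.1 h1).1
  · refine disjoint_left.2 fun M h1 h2 => ?_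
    obtain ⟨i, -, h⟩ := mem_biUnion.1 h2
    exact mem_allOpen.1 h1 i (mem_oneClosed.1 h).1
  · refine disjoint_left.2 fun d h1 h2 => ?_
    have g1 := (mem_U0.1 h1).2
    have g2 := mem_singleton.1 (mem_product.1 h2).2
    rw [g1] at g2
    exact Bool.false_ne_true g2

theorem sum_NE : 2 * ∑ c ∈ NE lam, c.card = Fintype.card lam * 2 ^ Fintype.card lam := by
  have h1 : ∑ c ∈ NE lam, c.card = ∑ c : Finset lam, c.card := by
    rw [NE, sum_erase _ card_empty]
  have h2 : ∑ c : Finset lam, (cᶜ).card = ∑ c : Finset lam, c.card :=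
    Equiv.sum_comp (compl_involutive.toPerm _) fun c : Finset lam => c.card
  have h3 : ∑ c : Finset lam, (c.card + (cᶜ).card) = ∑ c : Finset lam, Fintype.card lam :=
    sum_congr rfl fun c _ => card_add_card_compl c
  rw [sum_add_distrib, h2, sum_const, card_univ, Fintype.card_finset, smul_eq_mul] at h3
  rw [h1, two_mul, h3, mul_comm]

theorem card_NE : (NE lam).card + 1 = 2 ^ Fintype.card lam := by
  rw [NE, card_erase_add_one (mem_univ _), card_univ, Fintype.card_finset]

theorem mean_gap (hk : 4 ≤ Fintype.card lam)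
    (hs : 2 * 4 ^ Fintype.card lam ≤ Fintype.card σ) :
    (U1 σ lam).card * (U0 σ lam).card + (U0 σ lam).card * ∑ u ∈ U1 σ lam, rk u <
      (U1 σ lam).card * ∑ u ∈ U0 σ lam, rk u := by
  obtain ⟨b, hb⟩ : ∃ b, b = (NE lam).card := ⟨_, rfl⟩
  obtain ⟨κ, hκ⟩ : ∃ κ, κ = ∑ c ∈ NE lam, c.card := ⟨_, rfl⟩
  obtain ⟨s, hs'⟩ : ∃ s, Fintype.card σ = s + 1 := ⟨Fintype.card σ - 1, by
    have : 0 < 4 ^ Fintype.card lam := by positivity
    omega⟩
  have hb1 := card_NE (lam := lam)
  have hκ1 := sum_NE (lam := lam)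
  rw [← hb] at hb1
  rw [← hκ] at hκ1
  have hκ2 : 2 * b + 2 ≤ κ := by
    have := Nat.mul_le_mul_right (2 ^ Fintype.card lam) hk
    omega
  have hb0 : 0 < b := by
    have := Nat.pow_le_pow_right two_pos hk
    omega
  have hsb : 2 * (b * b) ≤ s + 1 := by
    have : 4 ^ Fintype.card lam = (b + 1) * (b + 1) := by rw [hb1, ← mul_pow]; rfl
    nlinarith
  have ca : (allOpen σ lam).card = b * b ^ s := by
    rw [allOpen, Fintype.card_piFinset, prod_const, card_univ, hs', ← hb, pow_succ']
  have cx : ∀ i, (oneClosed σ lam i).card = b ^ s := by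
    intro i
    rw [oneClosed, Fintype.card_piFinset, ← mul_prod_erase univ _ (mem_univ i),
      Function.update_self, card_singleton, one_mul,
      prod_congr rfl fun j hj => by rw [Function.update_of_ne (ne_of_mem_erase hj)],
      prod_const, card_erase_of_mem (mem_univ i), card_univ, hs', ← hb, Nat.add_sub_cancel]
  have sa : ∑ M ∈ allOpen σ lam, ∑ i, (M i).card = (s + 1) * (κ * b ^ s) := by
    rw [sum_comm]
    have : ∀ i, ∑ M ∈ allOpen σ lam, (M i).card = κ * b ^ s := by
      intro i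
      have h := sum_piFinset_eval (fun _ : σ => NE lam) card i
      rw [← hb, ← hκ] at h
      refine Nat.eq_of_mul_eq_mul_left hb0 ?_
      rw [allOpen, h, ← allOpen, ca]
      ring
    rw [sum_congr rfl fun i _ => this i, sum_const, card_univ, hs', smul_eq_mul]
  have sx : ∀ i, b * ∑ M ∈ oneClosed σ lam i, ∑ j, (M j).card = s * (κ * b ^ s) := by
    intro i
    rw [sum_comm, ← add_sum_erase univ _ (mem_univ i),
      sum_eq_zero fun M hM => by rw [(mem_oneClosed.1 hM).1, card_empty], zero_add, mul_sum]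
    have : ∀ j ∈ univ.erase i, b * ∑ M ∈ oneClosed σ lam i, (M j).card = κ * b ^ s := by
      intro j hj
      have h := sum_piFinset_eval (Function.update (fun _ : σ => NE lam) i {∅}) card j
      rw [Function.update_of_ne (ne_of_mem_erase hj), ← hb, ← hκ] at h
      rw [oneClosed, h, ← oneClosed, cx]
    rw [sum_congr rfl this, sum_const, card_erase_of_mem (mem_univ i), card_univ, hs',
      Nat.add_sub_cancel, smul_eq_mul]
  have c0 : (U0 σ lam).card = b * b ^ s := by rw [U0, card_product, card_singleton, mul_one, ca]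
  have c1 : (U1 σ lam).card = b * b ^ s + (b * b ^ s + (s + 1) * b ^ s) := by
    rw [card_eq_sum_ones, sum_U1]
    simp only [sum_const, smul_eq_mul, mul_one, ca, cx, card_univ, hs']
  have r0 : ∑ u ∈ U0 σ lam, rk u = (s + 1) * (κ * b ^ s) := by
    rw [U0, sum_product]
    simp only [sum_singleton, rk, Bool.toNat_false, add_zero]
    exact sa
  have r1 : b * ∑ u ∈ U1 σ lam, rk u = b * ((s + 1) * (κ * b ^ s)) +
      (b * ((s + 1) * (κ * b ^ s) + b * b ^ s) + (s + 1) * (s * (κ * b ^ s) + b * b ^ s)) := by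
    rw [sum_U1]
    simp only [rk, Bool.toNat_false, Bool.toNat_true, add_zero, sum_add_distrib, sum_const,
      smul_eq_mul, mul_one, sa, ca, cx, card_univ, hs']
    rw [mul_add, mul_add, mul_add, mul_add, mul_sum, sum_congr rfl fun i _ => sx i, sum_const,
      card_univ, hs', smul_eq_mul]
    ring
  obtain ⟨x, hx⟩ : ∃ x, x = b ^ s := ⟨_, rfl⟩
  have hx0 : 0 < x := by rw [hx]; positivity
  rw [c0, c1, r0, mul_comm b (b ^ s), mul_assoc (b ^ s) b, r1, ← hx]
  obtain ⟨z, rfl⟩ : ∃ z, κ = 2 * b + 2 + z := ⟨κ - (2 * b + 2), by omega⟩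
  have key : x * x * (3 * (b * b)) < x * x * ((s + 1) * (2 + z)) :=
    Nat.mul_lt_mul_of_pos_left (by nlinarith) (by positivity)
  nlinarith

end Necklace

end Pool.Agent.Lib.MP_662923_co
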