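import Mathlib

/-!
Binomial estimates: the peak of a shifted mixture of binomial coefficients.
-/

set_option autoImplicit false

namespace Pool.Agent.Lib.MP_662923_co

open Finset

/-- The binomial coefficient with an integer lower index, as a real number. -/
def ch (N : ℕ) (j : ℤ) : ℝ := if 0 ≤ j then (N.choose j.toNat : ℝ) else 0

theorem ch_nat (N m : ℕ) : ch N (m : ℤ) = (N.choose m : ℝ) := by
  simp [ch]

theorem ch_neg (N : ℕ) {j : ℤ} (h : j < 0) : ch N j = 0 := by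
  simp [ch, not_le.2 h]

theorem ch_nonneg (N : ℕ) (j : ℤ) : 0 ≤ ch N j := by
  unfold ch
  split_ifs <;> positivity

theorem ch_cases (j : ℤ) : j < 0 ∨ j = 0 ∨ ∃ m : ℕ, j = (m : ℤ) + 1 := by
  rcases lt_trichotomy j 0 with h | h | h
  · exact Or.inl h
  · exact Or.inr (Or.inl h)
  · exact Or.inr (Or.inr ⟨(j - 1).toNat, by omega⟩)

theorem ch_succ (N : ℕ) (j : ℤ) : ch (N + 1) j = ch N j + ch N (j - 1) := by
  rcases ch_cases j with h | rfl | ⟨m, rfl⟩
  · rw [ch_neg _ h, ch_neg _ h, ch_neg _ (by omega), add_zero]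
  · rw [ch_neg N (j := 0 - 1) (by omega)]
    simp [ch]
  · have e : ((m : ℤ) + 1) = ((m + 1 : ℕ) : ℤ) := by push_cast; rfl
    rw [add_sub_cancel_right, e, ch_nat, ch_nat, ch_nat, Nat.choose_succ_succ']
    push_cast
    ring

theorem ch_mul (N : ℕ) (j : ℤ) : ((N : ℝ) + 1) * ch N (j - 1) = ch (N + 1) j * j := by
  rcases ch_cases j with h | rfl | ⟨m, rfl⟩
  · rw [ch_neg _ h, ch_neg _ (by omega)]; simp
  · rw [ch_neg N (j := 0 - 1) (by omega)]; simp
  · have e : ((m : ℤ) + 1) = ((m + 1 : ℕ) : ℤ) := by push_cast; rfl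
    rw [add_sub_cancel_right, e, ch_nat, ch_nat]
    have := Nat.add_one_mul_choose_eq N m
    exact_mod_cast this

theorem ch_diff (N : ℕ) (j : ℤ) :
    ((N : ℝ) + 1) * (ch N j - ch N (j - 1)) = ch (N + 1) j * ((N : ℝ) + 1 - 2 * j) := by
  have h1 := ch_succ N j
  have h2 := ch_mul N j
  have h3 : ch N j = ch (N + 1) j - ch N (j - 1) := by linarith
  rw [h3]
  linear_combination (-2 : ℝ) * h2

theorem ch_le_mid (N : ℕ) (j : ℤ) : ch N j ≤ (N.choose (N / 2) : ℝ) := by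
  unfold ch
  split_ifs
  · exact_mod_cast Nat.choose_le_middle _ _
  · positivity

theorem mid_ge (N : ℕ) : (2 : ℝ) ^ N ≤ ((N : ℝ) + 1) * (N.choose (N / 2) : ℝ) := by
  have h1 := Nat.sum_range_choose N
  have h2 : ∑ m ∈ range (N + 1), N.choose m ≤ (range (N + 1)).card • N.choose (N / 2) :=
    sum_le_card_nsmul _ _ _ fun m _ => Nat.choose_le_middle m N
  rw [h1, card_range, smul_eq_mul] at h2
  exact_mod_cast h2

theorem ch_step (n L : ℕ) (j : ℤ) (hj : |j - (n / 2 : ℕ)| ≤ L) :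
    ((n : ℝ) + 1) * |ch n j - ch n (j - 1)| ≤ 2 * (n.choose (n / 2) : ℝ) * (2 * L + 2) := by
  have h1 := ch_diff n j
  have h2 : ch (n + 1) j ≤ 2 * (n.choose (n / 2) : ℝ) := by
    rw [ch_succ]
    linarith [ch_le_mid n j, ch_le_mid n (j - 1)]
  have h3 : |(n : ℝ) + 1 - 2 * j| ≤ 2 * L + 2 := by
    have h4 : |(n : ℤ) + 1 - 2 * j| ≤ 2 * L + 2 := by
      rw [abs_le] at hj ⊢
      omega
    exact_mod_cast h4
  have h5 : (0 : ℝ) ≤ (n : ℝ) + 1 := by positivity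
  calc ((n : ℝ) + 1) * |ch n j - ch n (j - 1)| = |((n : ℝ) + 1) * (ch n j - ch n (j - 1))| := by
        rw [abs_mul, abs_of_nonneg h5]
    _ = ch (n + 1) j * |(n : ℝ) + 1 - 2 * j| := by
        rw [h1, abs_mul, abs_of_nonneg (ch_nonneg _ _)]
    _ ≤ _ := mul_le_mul h2 h3 (abs_nonneg _) (by positivity)

theorem ch_flat (n L : ℕ) : ∀ m : ℕ, m ≤ L → ∀ j : ℤ, |j - (n / 2 : ℕ)| ≤ m →
    ((n : ℝ) + 1) * ((n.choose (n / 2) : ℝ) - ch n j) ≤
      m * (2 * (n.choose (n / 2) : ℝ) * (2 * L + 2)) := by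
  intro m
  induction m with
  | zero =>
    intro _ j hj
    have : j = ((n / 2 : ℕ) : ℤ) := by
      rw [abs_le] at hj
      omega
    rw [this, ch_nat]
    simp
  | succ m ih =>
    intro hm j hj
    have h5 : (0 : ℝ) ≤ (n : ℝ) + 1 := by positivity
    have hpos : (0 : ℝ) ≤ 2 * (n.choose (n / 2) : ℝ) * (2 * L + 2) := by positivity
    push_cast
    rw [abs_le] at hj
    push_cast at hj
    by_cases h0 : ((n / 2 : ℕ) : ℤ) < j
    · have h1 := ih (by omega) (j - 1) (by rw [abs_le]; omega)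
      have h2 := ch_step n L j (by rw [abs_le]; omega)
      have h3 := mul_le_mul_of_nonneg_left (neg_abs_le (ch n j - ch n (j - 1))) h5
      linarith
    · by_cases h0' : j < ((n / 2 : ℕ) : ℤ)
      · have h1 := ih (by omega) (j + 1) (by rw [abs_le]; omega)
        have h2 := ch_step n L (j + 1) (by rw [abs_le]; omega)
        rw [add_sub_cancel_right] at h2
        have h3 := mul_le_mul_of_nonneg_left (le_abs_self (ch n (j + 1) - ch n j)) h5
        linarith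
      · have h1 := ih (by omega) j (by rw [abs_le]; omega)
        linarith

theorem mix_diff {α : Type} (U : Finset α) (r : α → ℕ) (N : ℕ) (j : ℤ) :
    ((N : ℝ) + 1) * (∑ u ∈ U, ch N (j - r u) - ∑ u ∈ U, ch N (j - 1 - r u)) =
      ∑ u ∈ U, ch (N + 1) (j - r u) * ((N : ℝ) + 1 - 2 * j + 2 * r u) := by
  rw [← sum_sub_distrib, mul_sum]
  refine sum_congr rfl fun u _ => ?_
  have h := ch_diff N (j - r u)
  rw [show j - r u - 1 = j - 1 - r u by ring] at h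
  rw [h]
  push_cast
  ring

/-- If the mean of `r` on `U0` exceeds its mean on `U` by more than one, then at a peak of a
small perturbation of the mixture over `U` the mixture over `U0` still increases. -/
theorem peak_shift (R B : ℕ) : ∃ N0 : ℕ, ∀ N : ℕ, N0 ≤ N → ∀ {α : Type} (U U0 : Finset α)
    (r : α → ℕ) (err : ℝ) (a : ℤ → ℝ) (i : ℤ), U0 ⊆ U → U0.Nonempty → U.card ≤ B →
    (∀ u ∈ U, r u ≤ R) →
    U.card * U0.card + U0.card * ∑ u ∈ U, r u < U.card * ∑ u ∈ U0, r u →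
    0 ≤ err → err * (2 * B * ((N : ℝ) + 2) ^ 2) < 2 ^ N →
    (∀ j, a j ≤ ∑ u ∈ U, ch N (j - r u)) → (∀ j, ∑ u ∈ U, ch N (j - r u) ≤ a j + err) →
    (∀ j, a j ≤ a i) →
    ∑ u ∈ U0, ch N (i - r u) + err < ∑ u ∈ U0, ch N (i + 1 - r u) := by
  refine ⟨4 * (B * B * ((R + 2) * (2 * (R + 2) + 2)) * (2 * R + 2)), ?_⟩
  intro N hN α U U0 r err a i hsub hne hB hR hmean herr0 herr hup hlow hmax
  obtain ⟨u0, hu0⟩ := hne
  have hc0 : 1 ≤ U0.card := card_pos.2 ⟨u0, hu0⟩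
  have hc1 : U0.card ≤ U.card := card_le_card hsub
  have hB1 : (1 : ℝ) ≤ B := by exact_mod_cast (by omega : 1 ≤ B)
  have hN1 : (0 : ℝ) < (N : ℝ) + 1 := by positivity
  have hN0 : (0 : ℝ) ≤ N := Nat.cast_nonneg _
  have hsq : err * (2 * ((N : ℝ) + 2) ^ 2) < 2 ^ N := by
    refine lt_of_le_of_lt (mul_le_mul_of_nonneg_left ?_ herr0) herr
    nlinarith [sq_nonneg ((N : ℝ) + 2)]
  have hbig : ((N : ℝ) + 1) * err < a i := by
    have h1 := hlow ((r u0 : ℤ) + (N / 2 : ℕ))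
    have h2 : ch N ((r u0 : ℤ) + (N / 2 : ℕ) - r u0) ≤
        ∑ u ∈ U, ch N ((r u0 : ℤ) + (N / 2 : ℕ) - r u) :=
      single_le_sum (f := fun u => ch N ((r u0 : ℤ) + (N / 2 : ℕ) - r u))
        (fun u _ => ch_nonneg _ _) (hsub hu0)
    rw [add_sub_cancel_left, ch_nat] at h2
    have h3 := hmax ((r u0 : ℤ) + (N / 2 : ℕ))
    have h4 := mid_ge N
    have h5 : (N.choose (N / 2) : ℝ) ≤ a i + err := by linarith
    have h6 := mul_le_mul_of_nonneg_left h5 hN1.le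
    by_contra hcon
    have h7 := mul_le_mul_of_nonneg_left (not_lt.1 hcon) hN1.le
    nlinarith [mul_nonneg herr0 hN0, mul_nonneg herr0 (mul_nonneg hN0 hN0)]
  have hx1 : (N : ℤ) + 1 - 2 * i ≤ 2 := by
    by_contra hcon
    have hx : (3 : ℝ) ≤ (N : ℝ) + 1 - 2 * i := by
      exact_mod_cast (by omega : (3 : ℤ) ≤ (N : ℤ) + 1 - 2 * i)
    have h1 := mix_diff U r N (i + 1)
    rw [add_sub_cancel_right] at h1
    have h2 : ∑ u ∈ U, ch N (i - r u) ≤ ∑ u ∈ U, ch (N + 1) (i + 1 - r u) *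
        ((N : ℝ) + 1 - 2 * ((i + 1 : ℤ) : ℝ) + 2 * r u) := by
      refine sum_le_sum fun u _ => ?_
      have g1 := ch_succ N (i + 1 - r u)
      rw [show i + 1 - r u - 1 = i - r u by ring] at g1
      have g2 := ch_nonneg N (i + 1 - r u)
      have g3 := ch_nonneg (N + 1) (i + 1 - r u)
      have g4 : (1 : ℝ) ≤ (N : ℝ) + 1 - 2 * ((i + 1 : ℤ) : ℝ) + 2 * r u := by
        push_cast
        linarith [Nat.cast_nonneg (α := ℝ) (r u)]
      nlinarith
    have h3 := hlow (i + 1)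
    have h4 := hmax (i + 1)
    have h5 := hup i
    have h6 : ∑ u ∈ U, ch N (i + 1 - r u) - ∑ u ∈ U, ch N (i - r u) ≤ err := by linarith
    have h7 := mul_le_mul_of_nonneg_left h6 hN1.le
    linarith
  have hx2 : -(2 * (R : ℤ)) ≤ (N : ℤ) + 1 - 2 * i := by
    by_contra hcon
    have hx : (N : ℝ) + 1 - 2 * i + 2 * R ≤ -1 := by
      exact_mod_cast (by omega : (N : ℤ) + 1 - 2 * i + 2 * R ≤ -1)
    have h1 := mix_diff U r N i
    have h2 : ∑ u ∈ U, ch (N + 1) (i - r u) * ((N : ℝ) + 1 - 2 * i + 2 * r u) ≤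
        ∑ u ∈ U, -ch N (i - r u) := by
      refine sum_le_sum fun u hu => ?_
      have g1 := ch_succ N (i - r u)
      have g2 := ch_nonneg N (i - r u - 1)
      have g3 := ch_nonneg (N + 1) (i - r u)
      have g5 : (r u : ℝ) ≤ R := by exact_mod_cast hR u hu
      have g4 : (N : ℝ) + 1 - 2 * i + 2 * r u ≤ -1 := by linarith
      nlinarith
    rw [sum_neg_distrib] at h2
    have h3 := hlow (i - 1)
    have h4 := hmax (i - 1)
    have h5 := hup i
    have h6 : ∑ u ∈ U, ch N (i - 1 - r u) - ∑ u ∈ U, ch N (i - r u) ≤ err := by linarith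
    have h7 := mul_le_mul_of_nonneg_left h6 hN1.le
    linarith
  obtain ⟨D, hD⟩ : ∃ D : ℝ, D = ((N + 1).choose ((N + 1) / 2) : ℝ) := ⟨_, rfl⟩
  obtain ⟨η, hη⟩ : ∃ η : ℝ, η = (R + 2) * (2 * D * (2 * (R + 2) + 2)) / ((N : ℝ) + 2) := ⟨_, rfl⟩
  have hN2 : (0 : ℝ) < (N : ℝ) + 2 := by positivity
  have hD0 : 0 ≤ D := by rw [hD]; positivity
  have hη0 : 0 ≤ η := by rw [hη]; positivity
  have hflat : ∀ j : ℤ, |j - ((N + 1) / 2 : ℕ)| ≤ (R + 2 : ℕ) → |ch (N + 1) j - D| ≤ η := by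
    intro j hj
    have h1 := ch_flat (N + 1) (R + 2) (R + 2) le_rfl j hj
    have h2 := ch_le_mid (N + 1) j
    rw [← hD] at h1 h2
    push_cast at h1
    rw [abs_sub_comm, abs_of_nonneg (by linarith), hη, le_div_iff₀ hN2]
    linarith
  have hterm : ∀ (j : ℤ) (w : ℝ), |j - ((N + 1) / 2 : ℕ)| ≤ (R + 2 : ℕ) → |w| ≤ 2 * R + 2 →
      |ch (N + 1) j * w - D * w| ≤ η * (2 * R + 2) := by
    intro j w hj hw
    rw [← sub_mul, abs_mul]
    exact mul_le_mul (hflat j hj) hw (abs_nonneg _) hη0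
  have hx1R : (N : ℝ) + 1 - 2 * i ≤ 2 := by exact_mod_cast hx1
  have hx2R : -(2 * (R : ℝ)) ≤ (N : ℝ) + 1 - 2 * i := by exact_mod_cast hx2
  obtain ⟨x, hx⟩ : ∃ x : ℝ, x = (N : ℝ) + 1 - 2 * i := ⟨_, rfl⟩
  have hA : ∑ u ∈ U, ch (N + 1) (i - r u) * ((N : ℝ) + 1 - 2 * i + 2 * r u) ≤
      D * (U.card * x + 2 * ∑ u ∈ U, (r u : ℝ)) + U.card * (η * (2 * R + 2)) := by
    have : ∀ u ∈ U, ch (N + 1) (i - r u) * ((N : ℝ) + 1 - 2 * i + 2 * r u) ≤
        D * (x + 2 * r u) + η * (2 * R + 2) := by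
      intro u hu
      have g5 : (r u : ℝ) ≤ R := by exact_mod_cast hR u hu
      have g6 := hR u hu
      have := hterm (i - r u) ((N : ℝ) + 1 - 2 * i + 2 * r u) (by rw [abs_le]; omega)
        (by rw [abs_le]; constructor <;> linarith [Nat.cast_nonneg (α := ℝ) (r u)])
      rw [hx]
      linarith [(abs_le.1 this).2]
    refine le_trans (sum_le_sum this) (le_of_eq ?_)
    rw [sum_add_distrib, ← mul_sum, sum_add_distrib, ← mul_sum]
    simp only [sum_const, nsmul_eq_mul]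
  have hBq : D * (U0.card * (x - 2) + 2 * ∑ u ∈ U0, (r u : ℝ)) - U0.card * (η * (2 * R + 2)) ≤
      ∑ u ∈ U0, ch (N + 1) (i + 1 - r u) * ((N : ℝ) + 1 - 2 * ((i + 1 : ℤ) : ℝ) + 2 * r u) := by
    have : ∀ u ∈ U0, D * ((x - 2) + 2 * r u) - η * (2 * R + 2) ≤
        ch (N + 1) (i + 1 - r u) * ((N : ℝ) + 1 - 2 * ((i + 1 : ℤ) : ℝ) + 2 * r u) := by
      intro u hu
      have g5 : (r u : ℝ) ≤ R := by exact_mod_cast hR u (hsub hu)
      have g6 := hR u (hsub hu)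
      have := hterm (i + 1 - r u) ((N : ℝ) + 1 - 2 * ((i + 1 : ℤ) : ℝ) + 2 * r u)
        (by rw [abs_le]; omega)
        (by
          rw [abs_le]
          push_cast
          constructor <;> linarith [Nat.cast_nonneg (α := ℝ) (r u)])
      have e : (N : ℝ) + 1 - 2 * ((i + 1 : ℤ) : ℝ) + 2 * r u = (x - 2) + 2 * r u := by
        rw [hx]; push_cast; ring
      rw [e] at this ⊢
      linarith [(abs_le.1 this).1]
    refine le_trans (le_of_eq ?_) (sum_le_sum this)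
    rw [sum_sub_distrib, ← mul_sum, sum_add_distrib, ← mul_sum]
    simp only [sum_const, nsmul_eq_mul]
  have e1 := mix_diff U r N i
  have e2 := mix_diff U0 r N (i + 1)
  rw [add_sub_cancel_right] at e2
  have e3 : -err ≤ ∑ u ∈ U, ch N (i - r u) - ∑ u ∈ U, ch N (i - 1 - r u) := by
    linarith [hlow (i - 1), hmax (i - 1), hup i]
  have e4 := mul_le_mul_of_nonneg_left e3 hN1.le
  have hmeanR : (U.card : ℝ) * U0.card + U0.card * ∑ u ∈ U, (r u : ℝ) + 1 ≤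
      U.card * ∑ u ∈ U0, (r u : ℝ) := by exact_mod_cast hmean
  obtain ⟨p, hp⟩ : ∃ p : ℝ, p = U.card := ⟨_, rfl⟩
  obtain ⟨q, hq⟩ : ∃ q : ℝ, q = U0.card := ⟨_, rfl⟩
  have hq1 : 1 ≤ q := by rw [hq]; exact_mod_cast hc0
  have hqp : q ≤ p := by rw [hp, hq]; exact_mod_cast hc1
  have hpB : p ≤ B := by rw [hp]; exact_mod_cast hB
  rw [← hp] at hA hmeanR
  rw [← hq] at hBq hmeanR
  have f1 : p * q * (η * (2 * R + 2)) * 2 ≤ D := by
    have hNR : (4 * (B * B * ((R + 2) * (2 * (R + 2) + 2)) * (2 * R + 2)) : ℝ) ≤ N := by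
      exact_mod_cast hN
    have g1 : p * q ≤ (B : ℝ) * B := mul_le_mul hpB (hqp.trans hpB) (by linarith) (by linarith)
    have g2 : η * ((N : ℝ) + 2) = (R + 2) * (2 * D * (2 * (R + 2) + 2)) := by
      rw [hη]; field_simp
    refine le_of_mul_le_mul_right ?_ hN2
    have g3 : p * q * (η * (2 * R + 2)) * 2 * ((N : ℝ) + 2) =
        D * (4 * (p * q * ((R + 2) * (2 * (R + 2) + 2)) * (2 * R + 2))) := by
      linear_combination (p * q * (2 * R + 2) * 2) * g2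
    rw [g3]
    refine mul_le_mul_of_nonneg_left ?_ hD0
    have g4 : p * q * ((R + 2) * (2 * (R + 2) + 2)) * (2 * R + 2) ≤
        (B : ℝ) * B * ((R + 2) * (2 * (R + 2) + 2)) * (2 * R + 2) := by gcongr
    linarith
  have f2 : 2 * B * (((N : ℝ) + 1) * err) < D := by
    have g1 := mid_ge (N + 1)
    rw [← hD] at g1
    push_cast at g1
    refine lt_of_mul_lt_mul_left ?_ hN2.le
    have g2 : (2 : ℝ) ^ N ≤ 2 ^ (N + 1) := by rw [pow_succ]; linarith [pow_pos (two_pos (α := ℝ)) N]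
    have g3 : ((N : ℝ) + 2) * (2 * B * (((N : ℝ) + 1) * err)) ≤
        err * (2 * B * ((N : ℝ) + 2) ^ 2) := by
      have : 0 ≤ err * (2 * B * ((N : ℝ) + 2)) := by positivity
      nlinarith
    have g4 : (N : ℝ) + 1 + 1 = N + 2 := by ring
    rw [g4] at g1
    linarith
  obtain ⟨E, hE⟩ : ∃ E : ℝ, E = ((N : ℝ) + 1) * err := ⟨_, rfl⟩
  have hE0 : 0 ≤ E := by rw [hE]; positivity
  obtain ⟨y, hy⟩ : ∃ y : ℝ, y = ((N : ℝ) + 1) *
      (∑ u ∈ U0, ch N (i + 1 - r u) - ∑ u ∈ U0, ch N (i - r u)) := ⟨_, rfl⟩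
  have k1 : -E ≤ D * (p * x + 2 * ∑ u ∈ U, (r u : ℝ)) + p * (η * (2 * R + 2)) := by
    rw [hE]; linarith
  have k2 : D * (q * (x - 2) + 2 * ∑ u ∈ U0, (r u : ℝ)) - q * (η * (2 * R + 2)) ≤ y := by
    rw [hy]; linarith
  have k3 := mul_le_mul_of_nonneg_left k1 (by linarith : 0 ≤ q)
  have k4 := mul_le_mul_of_nonneg_left k2 (by linarith : 0 ≤ p)
  have k5 := mul_le_mul_of_nonneg_left hmeanR hD0
  rw [← hE] at f2
  have k6 : q * E ≤ B * E := mul_le_mul_of_nonneg_right (hqp.trans hpB) hE0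
  have k7 : p * E ≤ B * E := mul_le_mul_of_nonneg_right hpB hE0
  have k8 : p * E < p * y := by nlinarith
  have k9 : E < y := lt_of_mul_lt_mul_left k8 (by linarith)
  rw [hE, hy] at k9
  have := lt_of_mul_lt_mul_left k9 hN1.le
  linarith

end Pool.Agent.Lib.MP_662923_co
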