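import Pool.Agent.Lib.MP_662923_co.Check

namespace Pool.Agent.Lib.MP_662923_co

open Finset

/-- The code of the pair `u, v`. -/
def code (u v : Fin 19) : ℕ := 2 ^ u.val ||| 2 ^ v.val

theorem code_comm (u v : Fin 19) : code u v = code v u := Nat.or_comm _ _

theorem testBit_code (u v : Fin 19) (i : ℕ) :
    (code u v).testBit i = true ↔ u.val = i ∨ v.val = i := by
  simp [code, Nat.testBit_two_pow]

theorem code_lt (u v : Fin 19) : code u v < 2 ^ 19 :=
  Nat.or_lt_two_pow (Nat.pow_lt_pow_right (by norm_num) u.2)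
    (Nat.pow_lt_pow_right (by norm_num) v.2)

theorem code_inj {u v a b : Fin 19} (huv : u ≠ v) (h : code u v = code a b) :
    (u = a ∧ v = b) ∨ (u = b ∧ v = a) := by
  have h1 : a.val = u.val ∨ b.val = u.val := by
    rw [← testBit_code, ← h, testBit_code]; exact Or.inl rfl
  have h2 : a.val = v.val ∨ b.val = v.val := by
    rw [← testBit_code, ← h, testBit_code]; exact Or.inr rfl
  have h3 : u.val ≠ v.val := fun e => huv (Fin.ext e)
  simp only [Fin.ext_iff]
  omega

/-- The graph whose edges are the pairs with code in `T`. -/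
def gr (T : Finset ℕ) : SimpleGraph (Fin 19) where
  Adj u v := u ≠ v ∧ code u v ∈ T
  symm := ⟨fun u v h => ⟨h.1.symm, code_comm u v ▸ h.2⟩⟩
  loopless := ⟨fun _ h => h.1 rfl⟩

theorem gr_mono {S T : Finset ℕ} (h : S ⊆ T) : gr S ≤ gr T := fun _ _ e => ⟨e.1, h e.2⟩

def IsCode (m : ℕ) : Prop := ∃ a b : Fin 19, a ≠ b ∧ m = code a b

theorem step_eq (m R : ℕ) : step m R = if R &&& m = 0 then R else R ||| m := by
  unfold step
  by_cases h : R &&& m = 0
  · have : Nat.beq (Nat.land R m) 0 = true := Nat.beq_eq ▸ h
    rw [this, if_pos h]; rfl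
  · have : Nat.beq (Nat.land R m) 0 = false := by
      rw [Bool.eq_false_iff]; intro h'; exact h (Nat.eq_of_beq_eq_true h')
    rw [this, if_neg h]; rfl

def Inv (T : Finset ℕ) (R : ℕ) : Prop :=
  ∀ v : Fin 19, R.testBit v.val = true → (gr T).Reachable 0 v

theorem inv_step {T : Finset ℕ} {m R : ℕ} (hm : m ∈ T) (hc : IsCode m) (h : Inv T R) :
    Inv T (step m R) := by
  rw [step_eq]
  split_ifs with h0
  · exact h
  · obtain ⟨a, b, hab, rfl⟩ := hc
    obtain ⟨i, hi⟩ := Nat.exists_testBit_of_ne_zero h0
    rw [Nat.testBit_and, Bool.and_eq_true, testBit_code] at hi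
    have hadj : (gr T).Adj a b := ⟨hab, hm⟩
    have hab' : (gr T).Reachable 0 a ∧ (gr T).Reachable 0 b := by
      rcases hi.2 with e | e
      · have ha := h a (e ▸ hi.1)
        exact ⟨ha, ha.trans hadj.reachable⟩
      · have hb := h b (e ▸ hi.1)
        exact ⟨hb.trans hadj.symm.reachable, hb⟩
    intro v hv
    rw [Nat.testBit_or, Bool.or_eq_true, testBit_code] at hv
    rcases hv with hv | hv | hv
    · exact h v hv
    · exact (Fin.ext hv) ▸ hab'.1
    · exact (Fin.ext hv) ▸ hab'.2

theorem passF_ind {P : ℕ → Prop} : ∀ (K : List ℕ), (∀ m ∈ K, ∀ R, P R → P (step m R)) →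
    ∀ R, P R → P (passF K R)
  | [], _, _, h => h
  | m :: K, hs, R, h => by
    rw [passF_cons]
    exact passF_ind K (fun x hx => hs x (List.mem_cons_of_mem _ hx)) _
      (hs m List.mem_cons_self R h)

theorem passB_ind {P : ℕ → Prop} : ∀ (K : List ℕ), (∀ m ∈ K, ∀ R, P R → P (step m R)) →
    ∀ R, P R → P (passB K R)
  | [], _, _, h => h
  | m :: K, hs, R, h => by
    rw [passB_cons]
    exact hs m List.mem_cons_self _
      (passB_ind K (fun x hx => hs x (List.mem_cons_of_mem _ hx)) R h)

theorem round_ind {P : ℕ → Prop} (K l : List ℕ) (hK : ∀ m ∈ K, ∀ R, P R → P (step m R))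
    (hl : ∀ m ∈ l, ∀ R, P R → P (step m R)) (R : ℕ) (h : P R) : P (round K l R) := by
  rw [round_eq]
  exact passF_ind K hK _ (passB_ind l hl _ (passF_ind l hl _ (passB_ind K hK _ h)))

theorem chkAux_false_sound {T : Finset ℕ} {K l : List ℕ} (hK : ∀ m ∈ K, m ∈ T ∧ IsCode m)
    (hl : ∀ m ∈ l, m ∈ T ∧ IsCode m) :
    ∀ (f R : ℕ), Inv T R → chkAux false K l f R = true → (gr T).Connected
  | 0, R, _, h => by simp [chkAux_zero] at h
  | f + 1, R, hR, h => by
    have hR' : Inv T (round K l R) :=
      round_ind K l (fun m hm R => inv_step (hK m hm).1 (hK m hm).2)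
        (fun m hm R => inv_step (hl m hm).1 (hl m hm).2) R hR
    rw [chkAux_succ] at h
    cases h1 : Nat.beq (round K l R) 524287
    · rw [h1, cond_false] at h
      cases h2 : Nat.beq (round K l R) R
      · rw [h2, cond_false] at h
        exact chkAux_false_sound hK hl f _ hR' h
      · rw [h2, cond_true] at h
        exact absurd h (by simp)
    · have e := Nat.eq_of_beq_eq_true h1
      rw [e] at hR'
      have hall : ∀ v : Fin 19, (gr T).Reachable 0 v := fun v => hR' v (by
        revert v; decide)
      exact ⟨fun u v => (hall u).symm.trans (hall v)⟩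

theorem chk_false_sound {T : Finset ℕ} {K l : List ℕ} (hK : ∀ m ∈ K, m ∈ T ∧ IsCode m)
    (hl : ∀ m ∈ l, m ∈ T ∧ IsCode m) (h : chk false K l = true) : (gr T).Connected := by
  refine chkAux_false_sound hK hl 5 1 ?_ h
  intro v hv
  have : v = 0 := by revert v; decide
  rw [this]

theorem le_step (m R : ℕ) : R ≤ step m R := by
  rw [step_eq]; split_ifs
  · exact le_rfl
  · exact Nat.left_le_or

theorem le_passF (K : List ℕ) (R : ℕ) : R ≤ passF K R :=
  passF_ind (P := fun x => R ≤ x) K (fun m _ x hx => hx.trans (le_step m x)) R le_rfl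

theorem le_passB (K : List ℕ) (R : ℕ) : R ≤ passB K R :=
  passB_ind (P := fun x => R ≤ x) K (fun m _ x hx => hx.trans (le_step m x)) R le_rfl

theorem passF_fix : ∀ (K : List ℕ) (R : ℕ), passF K R = R → ∀ m ∈ K, step m R = R
  | [], _, _, m, hm => by simp at hm
  | x :: K, R, h, m, hm => by
    rw [passF_cons] at h
    have h1 : step x R = R := le_antisymm (by
      have := le_passF K (step x R); omega) (le_step x R)
    rw [h1] at h
    rcases List.mem_cons.1 hm with rfl | hm
    · exact h1
    · exact passF_fix K R h m hm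

theorem round_fix {K l : List ℕ} {R : ℕ} (h : round K l R = R) :
    (∀ m ∈ K, step m R = R) ∧ (∀ m ∈ l, step m R = R) := by
  rw [round_eq] at h
  have h1 := le_passB K R
  have h2 := le_passF l (passB K R)
  have h3 := le_passB l (passF l (passB K R))
  have h4 := le_passF K (passB l (passF l (passB K R)))
  have e1 : passB K R = R := by omega
  rw [e1] at h h2 h3 h4
  have e2 : passF l R = R := by omega
  rw [e2] at h h3 h4
  have e3 : passB l R = R := by omega
  rw [e3] at h
  exact ⟨passF_fix K R h, passF_fix l R e2⟩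

theorem full_of_closed {T : Finset ℕ} {R : ℕ} (hT : ∀ m ∈ T, step m R = R)
    (h0 : R.testBit 0 = true) (hlt : R < 2 ^ 19) (hc : (gr T).Connected) : R = 524287 := by
  have hadj : ∀ u v : Fin 19, (gr T).Adj u v → R.testBit u.val = true →
      R.testBit v.val = true := by
    intro u v huv hu
    have h1 := hT _ huv.2
    rw [step_eq] at h1
    split_ifs at h1 with h2
    · have : (R &&& code u v).testBit u.val = true := by
        rw [Nat.testBit_and, hu, (testBit_code u v _).2 (Or.inl rfl)]; rfl
      rw [h2] at this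
      simp at this
    · rw [← h1, Nat.testBit_or, (testBit_code u v _).2 (Or.inr rfl)]; simp
  have hall : ∀ v : Fin 19, R.testBit v.val = true := by
    intro v
    obtain ⟨w⟩ := hc.preconnected 0 v
    have : ∀ {a b : Fin 19} (_ : (gr T).Walk a b), R.testBit a.val = true →
        R.testBit b.val = true := by
      intro a b w
      induction w with
      | nil => exact id
      | cons h _ ih => exact fun ha => ih (hadj _ _ h ha)
    exact this w h0
  apply Nat.eq_of_testBit_eq
  intro i
  have e : (524287 : ℕ) = 2 ^ 19 - 1 := by norm_num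
  rw [e, Nat.testBit_two_pow_sub_one]
  by_cases hi : i < 19
  · rw [hall ⟨i, hi⟩]; simp [hi]
  · rw [Nat.testBit_lt_two_pow (hlt.trans_le (Nat.pow_le_pow_right (by norm_num) (by omega)))]
    simp [hi]

theorem good_step {m R : ℕ} (hc : IsCode m) (h : R.testBit 0 = true ∧ R < 2 ^ 19) :
    (step m R).testBit 0 = true ∧ step m R < 2 ^ 19 := by
  rw [step_eq]
  split_ifs
  · exact h
  · obtain ⟨a, b, -, rfl⟩ := hc
    exact ⟨by rw [Nat.testBit_or, h.1]; rfl, Nat.or_lt_two_pow h.2 (code_lt a b)⟩

theorem chkAux_true_complete {T : Finset ℕ} {K l : List ℕ} (hK : ∀ m ∈ K, IsCode m)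
    (hl : ∀ m ∈ l, IsCode m) (hT : ∀ m ∈ T, m ∈ K ∨ m ∈ l) (hc : (gr T).Connected) :
    ∀ (f R : ℕ), (R.testBit 0 = true ∧ R < 2 ^ 19) → chkAux true K l f R = true
  | 0, R, _ => rfl
  | f + 1, R, hR => by
    have hR' := round_ind (P := fun R => R.testBit 0 = true ∧ R < 2 ^ 19) K l
      (fun m hm R => good_step (hK m hm)) (fun m hm R => good_step (hl m hm)) R hR
    rw [chkAux_succ]
    cases h1 : Nat.beq (round K l R) 524287
    · rw [cond_false]
      cases h2 : Nat.beq (round K l R) R
      · rw [cond_false]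
        exact chkAux_true_complete hK hl hT hc f _ hR'
      · exfalso
        have e := Nat.eq_of_beq_eq_true h2
        have hf := round_fix e
        have := full_of_closed (T := T) (fun m hm => (hT m hm).elim (hf.1 m) (hf.2 m))
          hR.1 hR.2 hc
        rw [e, this] at h1
        exact absurd h1 (by decide)
    · rfl

theorem chk_true_complete {T : Finset ℕ} {K l : List ℕ} (hK : ∀ m ∈ K, IsCode m)
    (hl : ∀ m ∈ l, IsCode m) (hT : ∀ m ∈ T, m ∈ K ∨ m ∈ l) (hc : (gr T).Connected) :
    chk true K l = true :=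
  chkAux_true_complete hK hl hT hc 5 1 (by decide)

open Classical in
/-- The deleted sets of size `k` inside `l` that leave a connected graph. -/
noncomputable def fam (K l : List ℕ) (k : ℕ) : Finset (Finset ℕ) :=
  (l.toFinset.powersetCard k).filter fun S => (gr (K.toFinset ∪ (l.toFinset \ S))).Connected

theorem mem_fam {K l : List ℕ} {k : ℕ} {S : Finset ℕ} : S ∈ fam K l k ↔
    (S ⊆ l.toFinset ∧ S.card = k) ∧ (gr (K.toFinset ∪ (l.toFinset \ S))).Connected := by
  simp only [fam, mem_filter, mem_powersetCard]

theorem fam_nil (K : List ℕ) (k : ℕ) : (fam K [] (k + 1)).card = 0 := by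
  rw [card_eq_zero, eq_empty_iff_forall_notMem]
  intro S hS
  rw [mem_fam] at hS
  have := card_le_card hS.1.1
  simp [hS.1.2] at this

theorem fam_cons (K l : List ℕ) (m k : ℕ) (hm : m ∉ l) :
    (fam K (m :: l) (k + 1)).card = (fam (m :: K) l (k + 1)).card + (fam K l k).card := by
  have hm' : m ∉ l.toFinset := by simpa using hm
  have hinj : Set.InjOn (insert m : Finset ℕ → Finset ℕ) (fam K l k : Set (Finset ℕ)) := by
    intro S hS S' hS' e
    have h1 : m ∉ S := fun h => hm' ((mem_fam.1 hS).1.1 h)
    have h2 : m ∉ S' := fun h => hm' ((mem_fam.1 hS').1.1 h)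
    rw [← erase_insert h1, ← erase_insert h2, e]
  rw [← card_image_of_injOn hinj, ← card_union_of_disjoint]
  · congr 1
    ext S
    rw [mem_union, mem_image, mem_fam, mem_fam, List.toFinset_cons, List.toFinset_cons]
    constructor
    · rintro ⟨⟨h1, h2⟩, h3⟩
      by_cases hmS : m ∈ S
      · right
        refine ⟨S.erase m, mem_fam.2 ⟨⟨?_, ?_⟩, ?_⟩, insert_erase hmS⟩
        · intro x hx
          have := h1 (mem_of_mem_erase hx)
          rcases mem_insert.1 this with e | e
          · exact absurd e (ne_of_mem_erase hx)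
          · exact e
        · rw [card_erase_of_mem hmS, h2]; rfl
        · convert h3 using 3
          ext x
          simp only [mem_sdiff, mem_erase, mem_insert]
          constructor
          · rintro ⟨a, b⟩
            refine ⟨Or.inr a, fun c => b ⟨?_, c⟩⟩
            rintro rfl
            exact hm' a
          · rintro ⟨a | a, b⟩
            · exact absurd (a ▸ hmS) b
            · exact ⟨a, fun c => b c.2⟩
      · left
        refine ⟨⟨?_, h2⟩, ?_⟩
        · intro x hx
          rcases mem_insert.1 (h1 hx) with e | e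
          · exact absurd (e ▸ hx) hmS
          · exact e
        · convert h3 using 2
          ext x
          simp only [mem_union, mem_sdiff, mem_insert]
          constructor
          · rintro ((a | a) | a)
            · exact Or.inr ⟨Or.inl a, a ▸ hmS⟩
            · exact Or.inl a
            · exact Or.inr ⟨Or.inr a.1, a.2⟩
          · rintro (a | ⟨a | a, b⟩)
            · exact Or.inl (Or.inr a)
            · exact Or.inl (Or.inl a)
            · exact Or.inr ⟨a, b⟩
    · rintro (⟨⟨h1, h2⟩, h3⟩ | ⟨S', hS', rfl⟩)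
      · have hmS : m ∉ S := fun h => hm' (h1 h)
        refine ⟨⟨h1.trans (subset_insert _ _), h2⟩, ?_⟩
        convert h3 using 2
        ext x
        simp only [mem_union, mem_sdiff, mem_insert]
        constructor
        · rintro (a | ⟨a | a, b⟩)
          · exact Or.inl (Or.inr a)
          · exact Or.inl (Or.inl a)
          · exact Or.inr ⟨a, b⟩
        · rintro ((a | a) | a)
          · exact Or.inr ⟨Or.inl a, a ▸ hmS⟩
          · exact Or.inl a
          · exact Or.inr ⟨Or.inr a.1, a.2⟩
      · obtain ⟨⟨h1, h2⟩, h3⟩ := mem_fam.1 hS'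
        have hmS : m ∉ S' := fun h => hm' (h1 h)
        refine ⟨⟨insert_subset_insert _ h1, by rw [card_insert_of_notMem hmS, h2]⟩, ?_⟩
        convert h3 using 3
        ext x
        simp only [mem_sdiff, mem_insert]
        constructor
        · rintro ⟨a | a, b⟩
          · exact absurd (Or.inl a) b
          · exact ⟨a, fun c => b (Or.inr c)⟩
        · rintro ⟨a, b⟩
          refine ⟨Or.inr a, ?_⟩
          rintro (c | c)
          · exact hm' (c ▸ a)
          · exact b c
  · rw [disjoint_left]
    intro S hS hS'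
    obtain ⟨S', -, rfl⟩ := mem_image.1 hS'
    exact hm' ((mem_fam.1 hS).1.1 (mem_insert_self _ _))

theorem fam_zero_le (K l : List ℕ) : (fam K l 0).card ≤ 1 := by
  apply card_le_one.2
  intro a ha b hb
  rw [card_eq_zero.1 (mem_fam.1 ha).1.2, card_eq_zero.1 (mem_fam.1 hb).1.2]

theorem fam_zero_pos (K l : List ℕ) (h : (gr (K.toFinset ∪ l.toFinset)).Connected) :
    1 ≤ (fam K l 0).card :=
  card_pos.2 ⟨∅, mem_fam.2 ⟨⟨empty_subset _, rfl⟩, by rwa [sdiff_empty]⟩⟩

theorem fam_eq_zero (K l : List ℕ) (k : ℕ) (h : ¬ (gr (K.toFinset ∪ l.toFinset)).Connected) :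
    (fam K l k).card = 0 := by
  rw [card_eq_zero, eq_empty_iff_forall_notMem]
  intro S hS
  exact h ((mem_fam.1 hS).2.mono (gr_mono (union_subset_union_right sdiff_subset)))

theorem cnt_false_le : ∀ (l K : List ℕ) (k : ℕ), l.Nodup → (∀ m ∈ l, IsCode m) →
    (∀ m ∈ K, IsCode m) → cnt false l K k ≤ (fam K l (k + 1)).card
  | [], K, k, _, _, _ => by rw [cnt_nil]; exact Nat.zero_le _
  | m :: l, K, k, hn, hl, hK => by
    have hn' := List.nodup_cons.1 hn
    have hl' : ∀ x ∈ l, IsCode x := fun x hx => hl x (List.mem_cons_of_mem _ hx)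
    have hK' : ∀ x ∈ m :: K, IsCode x := by
      intro x hx
      rcases List.mem_cons.1 hx with rfl | hx
      · exact hl _ List.mem_cons_self
      · exact hK x hx
    rw [fam_cons K l m k hn'.1]
    have ih1 := cnt_false_le l (m :: K) k hn'.2 hl' hK'
    cases k with
    | zero =>
      rw [cnt_cons_zero]
      cases h : chk false K l
      · rw [cond_false]; omega
      · rw [cond_true]
        have := fam_zero_pos K l (chk_false_sound
          (fun x hx => ⟨mem_union_left _ (List.mem_toFinset.2 hx), hK x hx⟩)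
          (fun x hx => ⟨mem_union_right _ (List.mem_toFinset.2 hx), hl' x hx⟩) h)
        omega
    | succ k =>
      rw [cnt_cons_succ]
      have ih2 := cnt_false_le l K k hn'.2 hl' hK
      cases h : chk false K l
      · rw [cond_false]; omega
      · rw [cond_true]; omega

theorem le_cnt_true : ∀ (l K : List ℕ) (k : ℕ), l.Nodup → (∀ m ∈ l, IsCode m) →
    (∀ m ∈ K, IsCode m) → (fam K l (k + 1)).card ≤ cnt true l K k
  | [], K, k, _, _, _ => by rw [fam_nil]; exact Nat.zero_le _
  | m :: l, K, k, hn, hl, hK => by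
    have hn' := List.nodup_cons.1 hn
    have hl' : ∀ x ∈ l, IsCode x := fun x hx => hl x (List.mem_cons_of_mem _ hx)
    have hK' : ∀ x ∈ m :: K, IsCode x := by
      intro x hx
      rcases List.mem_cons.1 hx with rfl | hx
      · exact hl _ List.mem_cons_self
      · exact hK x hx
    rw [fam_cons K l m k hn'.1]
    have ih1 := le_cnt_true l (m :: K) k hn'.2 hl' hK'
    have hz : chk true K l = false → (fam K l k).card = 0 := by
      intro h
      apply fam_eq_zero
      intro hc
      have := chk_true_complete hK hl' (fun x hx => by simpa using hx) hc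
      rw [h] at this
      exact absurd this (by simp)
    cases k with
    | zero =>
      rw [cnt_cons_zero]
      cases h : chk true K l
      · rw [cond_false, hz h]; omega
      · rw [cond_true]
        have := fam_zero_le K l
        omega
    | succ k =>
      rw [cnt_cons_succ]
      have ih2 := le_cnt_true l K k hn'.2 hl' hK
      cases h : chk true K l
      · rw [cond_false, hz h]; omega
      · rw [cond_true]; omega

end Pool.Agent.Lib.MP_662923_co
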