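import Pool.Agent.Lib.MP_662923_co.Mix

/-!
The tube: `s + 1` cliques joined by matchings of size `k`, with one edge between the two ends.
-/

set_option autoImplicit false
set_option linter.unusedSectionVars false

namespace Pool.Agent.Lib.MP_662923_co

open Finset SimpleGraph

/-- A vertex set split into `s + 1` layers, with `k` lanes through the layers. -/
structure Lay (V : Type) (s k : ℕ) where
  π : V → Fin (s + 1)
  z : Fin (s + 1) → Fin k → V
  l0 : Fin k
  hπ : ∀ i l, π (z i l) = i
  hz : ∀ i l i' l', z i l = z i' l' → l = l'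
  hs : 2 ≤ s

/-- The link data: the lanes kept in every link, and whether the closing edge is kept. -/
abbrev TD (s k : ℕ) : Type := (Fin s → Finset (Fin k)) × Bool

variable {V : Type} [Fintype V] [DecidableEq V] {s k : ℕ} (L : Lay V s k)

theorem Lay.z_eq {i i' : Fin (s + 1)} {l l' : Fin k} :
    L.z i l = L.z i' l' ↔ (i : ℕ) = i' ∧ (l : ℕ) = l' := by
  constructor
  · intro h
    have h1 := congrArg L.π h
    rw [L.hπ, L.hπ] at h1
    exact ⟨congrArg Fin.val h1, congrArg Fin.val (L.hz _ _ _ _ h)⟩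
  · rintro ⟨h1, h2⟩
    rw [Fin.ext h1, Fin.ext h2]

/-- The link edges. -/
def lk : Option (Fin s × Fin k) → Sym2 V
  | none => s(L.z 0 L.l0, L.z (Fin.last s) L.l0)
  | some p => s(L.z p.1.castSucc p.2, L.z p.1.succ p.2)

open Classical in
/-- The edges inside the layers. -/
noncomputable def Efree : Finset (Sym2 V) :=
  univ.filter fun e => ¬ e.IsDiag ∧ (e.map L.π).IsDiag

variable {L}

theorem mem_Efree {u v : V} : s(u, v) ∈ Efree L ↔ u ≠ v ∧ L.π u = L.π v := by
  simp [Efree]

theorem not_diag_of_free {e : Sym2 V} (h : e ∈ Efree L) : ¬ e.IsDiag := by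
  induction e using Sym2.ind with
  | h u v => exact fun hd => (mem_Efree.1 h).1 (Sym2.mk_isDiag_iff.1 hd)

theorem lk_layer (o : Option (Fin s × Fin k)) {u v : V} (h : lk L o = s(u, v)) :
    L.π u ≠ L.π v := by
  intro e
  have e' := congrArg Fin.val e
  have hs := L.hs
  rcases o with _ | p <;> rcases Sym2.eq_iff.1 h with ⟨rfl, rfl⟩ | ⟨rfl, rfl⟩ <;>
    simp [L.hπ] at e' <;> omega

theorem lk_not_free (o : Option (Fin s × Fin k)) : lk L o ∉ Efree L := by
  intro h
  induction he : lk L o using Sym2.ind with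
  | h u v => exact lk_layer o he (mem_Efree.1 (he ▸ h)).2

theorem lk_not_diag (o : Option (Fin s × Fin k)) : ¬ (lk L o).IsDiag := by
  intro h
  induction he : lk L o using Sym2.ind with
  | h u v => exact lk_layer o he (congrArg L.π (Sym2.mk_isDiag_iff.1 (he ▸ h)))

theorem lk_inj : Function.Injective (lk L) := by
  have hs := L.hs
  rintro (_ | ⟨i, l⟩) (_ | ⟨i', l'⟩) h
  · rfl
  · exfalso
    simp only [lk, Sym2.eq_iff, L.z_eq, Fin.val_zero, Fin.val_last,
      Fin.val_castSucc, Fin.val_succ] at h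
    omega
  · exfalso
    simp only [lk, Sym2.eq_iff, L.z_eq, Fin.val_zero, Fin.val_last,
      Fin.val_castSucc, Fin.val_succ] at h
    omega
  · simp only [lk, Sym2.eq_iff, L.z_eq, Fin.val_castSucc, Fin.val_succ] at h
    simp only [Option.some.injEq, Prod.mk.injEq, Fin.ext_iff]
    omega

/-- The indices of the link edges kept. -/
def pk (d : TD s k) : Finset (Option (Fin s × Fin k)) :=
  univ.filter fun o => (o.elim d.2 fun p => decide (p.2 ∈ d.1 p.1)) = true

theorem none_mem_pk {d : TD s k} : none ∈ pk d ↔ d.2 = true := by simp [pk]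

theorem some_mem_pk {d : TD s k} {i : Fin s} {l : Fin k} : some (i, l) ∈ pk d ↔ l ∈ d.1 i := by
  simp [pk]

theorem card_pk (d : TD s k) : (pk d).card = rk d := by
  rw [pk, card_filter, Fintype.sum_option, Fintype.sum_prod_type, rk, add_comm]
  congr 1
  · refine sum_congr rfl fun i _ => ?_
    simp
  · cases h : d.2 <;> simp

theorem pk_inj {d d' : TD s k} (h : pk d = pk d') : d = d' := by
  refine Prod.ext (funext fun i => ?_) ?_
  · ext l
    rw [← some_mem_pk, ← some_mem_pk, h]
  · rw [Bool.eq_iff_iff, ← none_mem_pk, ← none_mem_pk, h]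

theorem rk_le (d : TD s k) : rk d ≤ s * k + 1 := by
  rw [← card_pk]
  simpa using card_le_univ (pk d)

variable (L)

/-- The edge set with link data `d` and layer edges `F`. -/
def eds (d : TD s k) (F : Finset (Sym2 V)) : Finset (Sym2 V) := F ∪ (pk d).image (lk L)

/-- The spanning subgraph with link data `d` and layer edges `F`. -/
def sub (d : TD s k) (F : Finset (Sym2 V)) : SimpleGraph V :=
  fromEdgeSet (eds L d F : Set (Sym2 V))

/-- The tube. -/
noncomputable def tube : SimpleGraph V := sub L (fun _ => univ, true) (Efree L)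

variable {L} {d d' : TD s k} {F F' : Finset (Sym2 V)}

theorem edgeSet_sub (hF : F ⊆ Efree L) : (sub L d F).edgeSet = (eds L d F : Set (Sym2 V)) := by
  ext e
  rw [sub, edgeSet_fromEdgeSet]
  refine ⟨fun h => h.1, fun h => ⟨h, ?_⟩⟩
  rcases mem_union.1 (mem_coe.1 h) with h | h
  · exact not_diag_of_free (hF h)
  · obtain ⟨o, -, rfl⟩ := mem_image.1 h
    exact lk_not_diag o

theorem sub_adj (hF : F ⊆ Efree L) {u v : V} :
    (sub L d F).Adj u v ↔ s(u, v) ∈ F ∨ ∃ o ∈ pk d, lk L o = s(u, v) := by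
  rw [← mem_edgeSet, edgeSet_sub hF, mem_coe, eds, mem_union, mem_image]

theorem ncard_sub (hF : F ⊆ Efree L) : (sub L d F).edgeSet.ncard = rk d + F.card := by
  rw [edgeSet_sub hF, Set.ncard_coe_finset, eds, card_union_of_disjoint,
    card_image_of_injective _ lk_inj, card_pk, add_comm]
  refine disjoint_left.2 fun e h1 h2 => ?_
  obtain ⟨o, -, rfl⟩ := mem_image.1 h2
  exact lk_not_free o (hF h1)

theorem of_sub_le (hF : F ⊆ Efree L) (hF' : F' ⊆ Efree L)
    (h : sub L d F ≤ sub L d' F') : pk d ⊆ pk d' ∧ F ⊆ F' := by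
  have h1 := edgeSet_mono h
  rw [edgeSet_sub hF, edgeSet_sub hF', coe_subset] at h1
  constructor
  · intro o ho
    rcases mem_union.1 (h1 (mem_union_right _ (mem_image_of_mem _ ho))) with g | g
    · exact absurd (hF' g) (lk_not_free o)
    · obtain ⟨o', ho', e⟩ := mem_image.1 g
      exact lk_inj e ▸ ho'
  · intro e he
    rcases mem_union.1 (h1 (mem_union_left _ he)) with g | g
    · exact g
    · obtain ⟨o', -, rfl⟩ := mem_image.1 g
      exact absurd (hF he) (lk_not_free o')

theorem mem_pk_top (o : Option (Fin s × Fin k)) : o ∈ pk ((fun _ => univ, true) : TD s k) := by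
  rcases o with _ | ⟨i, l⟩
  · exact none_mem_pk.2 rfl
  · exact some_mem_pk.2 (mem_univ _)

theorem sub_le_tube (hF : F ⊆ Efree L) : sub L d F ≤ tube L :=
  fromEdgeSet_mono (coe_subset.2
    (union_subset_union hF (image_subset_image fun o _ => mem_pk_top o)))

theorem exists_sub {H : SimpleGraph V} (h : H ≤ tube L) :
    ∃ d : TD s k, ∃ F ⊆ Efree L, H = sub L d F := by
  classical
  refine ⟨(fun i => univ.filter fun l => lk L (some (i, l)) ∈ H.edgeSet,
    decide (lk L none ∈ H.edgeSet)),
    (Efree L).filter fun e => e ∈ H.edgeSet, filter_subset _ _, ?_⟩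
  have hpk : ∀ o, o ∈ pk ((fun i => univ.filter fun l => lk L (some (i, l)) ∈ H.edgeSet,
      decide (lk L none ∈ H.edgeSet)) : TD s k) ↔ lk L o ∈ H.edgeSet := by
    rintro (_ | ⟨i, l⟩)
    · rw [none_mem_pk, decide_eq_true_iff]
    · rw [some_mem_pk, mem_filter, and_iff_right (mem_univ _)]
  ext u v
  rw [sub_adj (filter_subset _ _), mem_filter]
  constructor
  · intro huv
    rcases (sub_adj (Subset.refl _)).1 (h huv) with g | ⟨o, -, g⟩
    · exact Or.inl ⟨g, huv⟩
    · exact Or.inr ⟨o, (hpk o).2 (g ▸ huv), g⟩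
  · rintro (g | ⟨o, g, e⟩)
    · exact g.2
    · have := (hpk o).1 g
      rwa [e] at this

theorem const_of_connected {W : Type} {H : SimpleGraph W} (hc : H.Connected) (f : W → Prop)
    (hf : ∀ u v, H.Adj u v → (f u ↔ f v)) (u v : W) : f u ↔ f v := by
  obtain ⟨w⟩ := hc.preconnected u v
  induction w with
  | nil => rfl
  | cons h _ ih => exact (hf _ _ h).trans ih

theorem layer_const (hF : F ⊆ Efree L) (hc : (sub L d F).Connected)
    (g : ℕ → Prop) (h1 : ∀ i : Fin s, d.1 i ≠ ∅ → (g i ↔ g (i + 1)))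
    (h2 : d.2 = true → (g 0 ↔ g s)) (a b : Fin (s + 1)) : g a ↔ g b := by
  have := const_of_connected hc (fun v => g (L.π v)) (fun u v huv => ?_)
    (L.z a L.l0) (L.z b L.l0)
  · simpa only [L.hπ] using this
  rcases (sub_adj hF).1 huv with h | ⟨_ | ⟨i, l⟩, ho, e⟩
  · rw [(mem_Efree.1 (hF h)).2]
  · have := h2 (none_mem_pk.1 ho)
    rcases Sym2.eq_iff.1 e with ⟨rfl, rfl⟩ | ⟨rfl, rfl⟩
    · rw [L.hπ, L.hπ]
      exact this
    · rw [L.hπ, L.hπ]
      exact this.symm
  · have := h1 i (ne_empty_of_mem (some_mem_pk.1 ho))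
    rcases Sym2.eq_iff.1 e with ⟨rfl, rfl⟩ | ⟨rfl, rfl⟩
    · rw [L.hπ, L.hπ]
      exact this
    · rw [L.hπ, L.hπ]
      exact this.symm

theorem mem_U1_of_connected (hF : F ⊆ Efree L)
    (hc : (sub L d F).Connected) : d ∈ U1 (Fin s) (Fin k) := by
  rw [mem_U1]
  by_cases h : ∀ i, d.1 i ≠ ∅
  · exact Or.inl h
  right
  push Not at h
  obtain ⟨i, hi⟩ := h
  have hne : ∀ j : Fin s, d.1 j ≠ ∅ → ∀ j' : Fin s, d.1 j' = ∅ → (j : ℕ) ≠ j' :=
    fun j hj j' hj' e => hj (by rw [Fin.ext e]; exact hj')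
  have two : ∀ a b : Fin s, d.1 a = ∅ → d.1 b = ∅ → ¬ (a : ℕ) < b := by
    intro a b ha hb hab
    have := layer_const hF hc (fun x => (a : ℕ) < x ∧ x ≤ b)
      (fun j hj => by
        have := hne j hj a ha
        have := hne j hj b hb
        omega)
      (fun _ => by
        have := b.2
        omega) b.castSucc 0
    simp only [Fin.val_castSucc, Fin.val_zero] at this
    omega
  refine ⟨?_, i, hi, fun j hj hj' => hj (Fin.ext ?_)⟩
  · by_contra h2
    have := layer_const hF hc (fun x => x ≤ (i : ℕ))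
      (fun j hj => by
        have := hne j hj i hi
        omega) (fun h => absurd h h2) 0 (Fin.last s)
    simp only [Fin.val_last, Fin.val_zero] at this
    have := i.2
    omega
  · have := two i j hi hj'
    have := two j i hj' hi
    omega

variable (L) in
/-- Any two vertices of a layer have a common neighbour. -/
def GoodF (F : Finset (Sym2 V)) : Prop :=
  ∀ a b : V, a ≠ b → L.π a = L.π b → ∃ w, s(a, w) ∈ F ∧ s(b, w) ∈ F

theorem connected_of_good (hF : F ⊆ Efree L) (hg : GoodF L F)
    (hd : d ∈ U1 (Fin s) (Fin k)) : (sub L d F).Connected := by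
  have lay : ∀ a b : V, L.π a = L.π b → (sub L d F).Reachable a b := by
    intro a b h
    by_cases hab : a = b
    · rw [hab]
    · obtain ⟨w, h1, h2⟩ := hg a b hab h
      exact ((sub_adj hF).2 (Or.inl h1)).reachable.trans
        ((sub_adj hF).2 (Or.inl h2)).reachable.symm
  have link : ∀ i : Fin s, d.1 i ≠ ∅ →
      (sub L d F).Reachable (L.z i.castSucc L.l0) (L.z i.succ L.l0) := by
    intro i hi
    obtain ⟨l, hl⟩ := nonempty_iff_ne_empty.2 hi
    exact (lay _ _ (by rw [L.hπ, L.hπ])).trans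
      (((sub_adj hF).2 (Or.inr ⟨some (i, l), some_mem_pk.2 hl, rfl⟩)).reachable.trans
        (lay _ _ (by rw [L.hπ, L.hπ])))
  have span : ∀ (n : ℕ) (a b : Fin (s + 1)), (b : ℕ) = a + n →
      (∀ j : Fin s, (a : ℕ) ≤ j → (j : ℕ) < b → d.1 j ≠ ∅) →
      (sub L d F).Reachable (L.z a L.l0) (L.z b L.l0) := by
    intro n
    induction n with
    | zero =>
      intro a b h _
      rw [show b = a from Fin.ext h]
    | succ n ih =>
      intro a b h hj
      have hb := b.2
      have e : b = (⟨a + n, by omega⟩ : Fin s).succ := Fin.ext h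
      have h1 := ih a (⟨a + n, by omega⟩ : Fin s).castSucc rfl
        fun j g1 g2 => hj j g1 (by simp only [Fin.val_castSucc] at g2; omega)
      rw [e]
      exact h1.trans (link _ (hj _ (by simp) (by simp only; omega)))
  have all : ∀ i : Fin (s + 1), (sub L d F).Reachable (L.z 0 L.l0) (L.z i L.l0) := by
    intro i
    rcases mem_U1.1 hd with h | ⟨h2, i0, -, h⟩
    · exact span i 0 i (by simp) fun j _ _ => h j
    · by_cases hi : (i : ℕ) ≤ i0
      · exact span i 0 i (by simp) fun j _ g => h j fun e => by rw [e] at g; omega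
      · have h3 := span (s - i) i (Fin.last s) (by have := i.2; simp only [Fin.val_last]; omega)
          fun j g _ => h j fun e => by rw [e] at g; omega
        exact ((sub_adj hF).2 (Or.inr ⟨none, none_mem_pk.2 h2, rfl⟩)).reachable.trans h3.symm
  have : Nonempty V := ⟨L.z 0 L.l0⟩
  exact ⟨fun u v => ((all (L.π u)).trans (lay _ u (L.hπ _ _))).symm.trans
    ((all (L.π v)).trans (lay _ v (L.hπ _ _)))⟩

open Classical in
theorem bad_count {t : ℕ} (ht : ∀ i, t ≤ (univ.filter fun v => L.π v = i).card) :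
    4 ^ (t - 2) * ((Efree L).powerset.filter fun F => ¬ GoodF L F).card ≤
      Fintype.card V * Fintype.card V * (3 ^ (t - 2) * 2 ^ (Efree L).card) := by
  set B : V × V → Finset (Finset (Sym2 V)) := fun x =>
    if x.1 ≠ x.2 ∧ L.π x.1 = L.π x.2 then (Efree L).powerset.filter fun F =>
      ∀ w, ¬ (s(x.1, w) ∈ F ∧ s(x.2, w) ∈ F) else ∅ with hB
  have h1 : ((Efree L).powerset.filter fun F => ¬ GoodF L F) ⊆ univ.biUnion B := by
    intro F hF
    obtain ⟨g1, g2⟩ := mem_filter.1 hF
    rw [GoodF] at g2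
    push Not at g2
    obtain ⟨a, b, hab, hπ, h⟩ := g2
    refine mem_biUnion.2 ⟨(a, b), mem_univ _, ?_⟩
    simp only [hB, if_pos (And.intro hab hπ)]
    exact mem_filter.2 ⟨g1, fun w hw => h w hw.1 hw.2⟩
  have h2 : ∀ x, 4 ^ (t - 2) * (B x).card ≤ 3 ^ (t - 2) * 2 ^ (Efree L).card := by
    rintro ⟨a, b⟩
    by_cases hab : a ≠ b ∧ L.π a = L.π b
    · obtain ⟨I, hI, hc⟩ := exists_subset_card_eq (n := t - 2)
        (s := ((univ.filter fun v => L.π v = L.π a).erase a).erase b) (by
          have g1 := ht (L.π a)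
          have g2 := pred_card_le_card_erase (s := univ.filter fun v => L.π v = L.π a) (a := a)
          have g3 := pred_card_le_card_erase
            (s := (univ.filter fun v => L.π v = L.π a).erase a) (a := b)
          omega)
      have hw : ∀ w ∈ I, w ≠ a ∧ w ≠ b ∧ L.π w = L.π a := fun w hw =>
        ⟨ne_of_mem_erase (mem_of_mem_erase (hI hw)), ne_of_mem_erase (hI hw),
          (mem_filter.1 (mem_of_mem_erase (mem_of_mem_erase (hI hw)))).2⟩
      have := avoid_pairs (Efree L) (fun w => s(a, w)) (fun w => s(b, w)) I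
        (fun w _ w' _ e => Sym2.congr_right.1 e) (fun w _ w' _ e => Sym2.congr_right.1 e)
        (fun w g => ⟨mem_Efree.2 ⟨(hw w g).1.symm, (hw w g).2.2.symm⟩,
          mem_Efree.2 ⟨(hw w g).2.1.symm, hab.2.symm.trans (hw w g).2.2.symm⟩⟩)
        (fun w _ w' g' e => by
          rcases Sym2.eq_iff.1 e with ⟨e1, -⟩ | ⟨e1, -⟩
          · exact hab.1 e1
          · exact (hw w' g').1 e1.symm)
      rw [hc] at this
      simp only [hB, if_pos hab]
      rw [← this]
      refine Nat.mul_le_mul_left _ (card_le_card fun F hF => ?_)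
      simp only [mem_filter] at hF ⊢
      exact ⟨hF.1, fun w _ => hF.2 w⟩
    · simp only [hB, if_neg hab, card_empty, mul_zero, Nat.zero_le]
  calc _ ≤ 4 ^ (t - 2) * ∑ x, (B x).card :=
        Nat.mul_le_mul_left _ ((card_le_card h1).trans card_biUnion_le)
    _ ≤ ∑ _x : V × V, 3 ^ (t - 2) * 2 ^ (Efree L).card := by
        rw [mul_sum]
        exact sum_le_sum fun x _ => h2 x
    _ = _ := by simp

theorem tube_induce_connected (S : Set V) (hS : S.ncard < k) :
    ((tube L).induce Sᶜ).Connected := by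
  obtain ⟨l, hl⟩ : ∃ l : Fin k, ∀ i, L.z i l ∉ S := by
    by_contra hcon
    push Not at hcon
    choose f hf using hcon
    have h1 := Set.ncard_le_ncard_of_injOn (s := (Set.univ : Set (Fin k))) (t := S)
      (fun l => L.z (f l) l) (fun l _ => hf l) (fun l _ l' _ e => L.hz _ _ _ _ e)
    rw [Set.ncard_univ, Nat.card_eq_fintype_card, Fintype.card_fin] at h1
    omega
  have lane : ∀ i : Fin (s + 1), ((tube L).induce Sᶜ).Reachable ⟨_, hl 0⟩ ⟨_, hl i⟩ := by
    intro i
    induction i using Fin.induction with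
    | zero => rfl
    | succ i ih =>
      refine ih.trans (Adj.reachable ?_)
      exact (sub_adj (Subset.refl _)).2 (Or.inr ⟨some (i, l), mem_pk_top _, rfl⟩)
  have all : ∀ v, ((tube L).induce Sᶜ).Reachable ⟨_, hl 0⟩ v := by
    rintro ⟨v, hv⟩
    by_cases h : L.z (L.π v) l = v
    · have e : (⟨v, hv⟩ : (Sᶜ : Set V)) = ⟨_, hl (L.π v)⟩ := Subtype.ext h.symm
      rw [e]
      exact lane _
    · refine (lane (L.π v)).trans (Adj.reachable ?_)
      exact (sub_adj (Subset.refl _)).2 (Or.inl (mem_Efree.2 ⟨h, L.hπ _ _⟩))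
  have : Nonempty (Sᶜ : Set V) := ⟨⟨_, hl 0⟩⟩
  exact ⟨fun u v => (all u).symm.trans (all v)⟩

theorem card_Efree_bounds {t : ℕ} (ht : ∀ i, t ≤ (univ.filter fun v => L.π v = i).card) :
    t ≤ (Efree L).card + 1 ∧ (Efree L).card ≤ Fintype.card V * Fintype.card V := by
  constructor
  · have h1 := card_le_card_of_injOn
      (s := (univ.filter fun v => L.π v = 0).erase (L.z 0 L.l0)) (t := Efree L)
      (fun w => s(L.z 0 L.l0, w))
      (fun w hw => mem_coe.2 (mem_Efree.2 ⟨(ne_of_mem_erase hw).symm,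
        (L.hπ _ _).trans (mem_filter.1 (mem_of_mem_erase hw)).2.symm⟩))
      (fun w _ w' _ e => Sym2.congr_right.1 e)
    have h2 := pred_card_le_card_erase (s := univ.filter fun v => L.π v = 0) (a := L.z 0 L.l0)
    have h3 := ht 0
    omega
  · refine (card_le_univ _).trans ?_
    have := Fintype.card_le_of_surjective (fun p : V × V => s(p.1, p.2))
      fun e => by
        induction e using Sym2.ind with
        | h u v => exact ⟨(u, v), rfl⟩
    simpa using this

theorem tube_degree {t : ℕ} (ht : ∀ i, t ≤ (univ.filter fun v => L.π v = i).card) (v : V) :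
    t ≤ ((tube L).neighborSet v).ncard + 1 := by
  have h1 : (((univ.filter fun w => L.π w = L.π v).erase v : Finset V) : Set V) ⊆
      (tube L).neighborSet v := by
    intro w hw
    exact (sub_adj (Subset.refl _)).2 (Or.inl (mem_Efree.2
      ⟨(ne_of_mem_erase hw).symm, (mem_filter.1 (mem_of_mem_erase hw)).2.symm⟩))
  have h2 := Set.ncard_le_ncard h1 (Set.toFinite _)
  rw [Set.ncard_coe_finset] at h2
  have h3 := pred_card_le_card_erase (s := univ.filter fun w => L.π w = L.π v) (a := v)
  have h4 := ht (L.π v)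
  omega

end Pool.Agent.Lib.MP_662923_co
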