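import Pool.Agent.Lib.MP_662923_co.Tube

/-!
The tube is not Sperner when its layers are large.
-/

set_option autoImplicit false

namespace Pool.Agent.Lib.MP_662923_co

open Finset SimpleGraph Filter

theorem small_err (c : ℕ) : ∃ t0 : ℕ, ∀ t : ℕ, t0 ≤ t →
    (c : ℝ) * (t : ℝ) ^ 6 * (3 / 4 : ℝ) ^ (t - 2) < 1 := by
  have h := tendsto_pow_const_mul_const_pow_of_abs_lt_one 6
    (show |(3 / 4 : ℝ)| < 1 by rw [abs_of_pos] <;> norm_num)
  have h2 := (h.const_mul ((c : ℝ) * (16 / 9))).eventually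
    (gt_mem_nhds (show (c : ℝ) * (16 / 9) * 0 < 1 by simp))
  obtain ⟨n0, hn0⟩ := eventually_atTop.1 h2
  refine ⟨n0 + 2, fun t ht => ?_⟩
  obtain ⟨n, rfl⟩ : ∃ n, t = n + 2 := ⟨t - 2, by omega⟩
  have := hn0 (n + 2) (by omega)
  rw [Nat.add_sub_cancel]
  refine lt_of_eq_of_lt ?_ this
  rw [pow_add (3 / 4 : ℝ) n 2]
  ring

theorem tube_not_sperner {s k : ℕ} (c : ℕ) (hk : 4 ≤ k) (hs : 2 * 4 ^ k ≤ s) :
    ∃ t0 : ℕ, ∀ t : ℕ, t0 ≤ t → ∀ {V : Type} [Fintype V] [DecidableEq V] (L : Lay V s k),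
      (∀ i, t ≤ (univ.filter fun v => L.π v = i).card) → Fintype.card V ≤ c * t →
      ∃ A : Set (SimpleGraph V),
      (∀ H ∈ A, H ≤ tube L ∧ H.Connected) ∧ IsAntichain (· ≤ ·) A ∧
      ∀ j : ℕ, {H : SimpleGraph V |
        H ≤ tube L ∧ H.Connected ∧ H.edgeSet.ncard = j}.ncard < A.ncard := by
  classical
  obtain ⟨B, hB⟩ : ∃ B, B = (U1 (Fin s) (Fin k)).card := ⟨_, rfl⟩
  obtain ⟨N0, hN0⟩ := peak_shift (s * k + 1) B
  obtain ⟨t0, ht0⟩ := small_err (B * c ^ 2 * (2 * B * (3 * c ^ 2) ^ 2))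
  refine ⟨t0 + N0 + 1, fun t ht V _ _ L hL hV => ?_⟩
  obtain ⟨hNl, hNu⟩ := card_Efree_bounds hL
  set E := Efree L with hE
  set Ω : Finset (TD s k × Finset (Sym2 (V))) := U1 (Fin s) (Fin k) ×ˢ E.powerset with hΩ
  set Ω0 : Finset (TD s k × Finset (Sym2 (V))) := U0 (Fin s) (Fin k) ×ˢ E.powerset
    with hΩ0
  set C := Ω.filter fun p => (sub L p.1 p.2).Connected with hC
  set bad := Ω.filter fun p => ¬ GoodF L p.2 with hbad
  set sz : TD s k × Finset (Sym2 (V)) → ℕ := fun p => rk p.1 + p.2.card with hsz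
  have hU01 : U0 (Fin s) (Fin k) ⊆ U1 (Fin s) (Fin k) := subset_union_left
  have hΩ01 : Ω0 ⊆ Ω := product_subset_product_left hU01
  have hF : ∀ p ∈ Ω, p.2 ⊆ E := fun p hp => mem_powerset.1 (mem_product.1 hp).2
  have hsplit : ∀ p ∈ Ω, p ∈ C ∨ p ∈ bad := by
    intro p hp
    by_cases hg : GoodF L p.2
    · exact Or.inl (mem_filter.2 ⟨hp, connected_of_good (hF p hp) hg (mem_product.1 hp).1⟩)
    · exact Or.inr (mem_filter.2 ⟨hp, hg⟩)
  obtain ⟨i, -, hi⟩ := exists_max_image (range (s * k + 1 + E.card + 1))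
    (fun j => (C.filter fun p => sz p = j).card) ⟨0, by simp⟩
  have hmax : ∀ j : ℕ, (C.filter fun p => sz p = j).card ≤ (C.filter fun p => sz p = i).card := by
    intro j
    by_cases hj : j ∈ range (s * k + 1 + E.card + 1)
    · exact hi j hj
    · rw [filter_eq_empty_iff.2, card_empty]
      · exact Nat.zero_le _
      · intro p hp e
        have h1 := rk_le p.1
        have h2 := card_le_card (hF p (mem_filter.1 hp).1)
        simp only [hsz] at e
        rw [mem_range] at hj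
        omega
  have hbadc : (bad.card : ℝ) * (2 * B * ((E.card : ℝ) + 2) ^ 2) < 2 ^ E.card := by
    have h1 : bad.card = B * (E.powerset.filter fun F => ¬ GoodF L F).card := by
      rw [hbad, hΩ, filter_product_right (fun F => ¬ GoodF L F), card_product, hB]
    have h2 := bad_count hL
    have h3 := ht0 t (by omega)
    have hV2 : Fintype.card V * Fintype.card V ≤ c ^ 2 * t ^ 2 := by
      have := Nat.mul_le_mul hV hV
      nlinarith
    have h4 : E.card + 2 ≤ 3 * c ^ 2 * t ^ 2 := by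
      have g1 : 0 < Fintype.card V := Fintype.card_pos_iff.2 ⟨L.z 0 L.l0⟩
      have g2 : 0 < Fintype.card V * Fintype.card V := Nat.mul_pos g1 g1
      nlinarith
    have h2' : 4 ^ (t - 2) * (E.powerset.filter fun F => ¬ GoodF L F).card ≤
        c ^ 2 * t ^ 2 * (3 ^ (t - 2) * 2 ^ E.card) := by
      refine le_trans ?_ (Nat.mul_le_mul_right _ hV2)
      convert h2
    have h5 : (4 : ℝ) ^ (t - 2) * ((E.powerset.filter fun F => ¬ GoodF L F).card : ℝ) ≤
        c ^ 2 * t ^ 2 * (3 ^ (t - 2) * 2 ^ E.card) := by exact_mod_cast h2'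
    have h6 : (E.card : ℝ) + 2 ≤ 3 * c ^ 2 * t ^ 2 := by exact_mod_cast h4
    have h7 : ((E.powerset.filter fun F => ¬ GoodF L F).card : ℝ) ≤
        c ^ 2 * t ^ 2 * ((3 / 4) ^ (t - 2) * 2 ^ E.card) := by
      rw [div_pow]
      have g : (0 : ℝ) < 4 ^ (t - 2) := by positivity
      refine le_of_mul_le_mul_left (h5.trans (le_of_eq ?_)) g
      field_simp
    rw [h1]
    push_cast at h3 ⊢
    calc (B : ℝ) * ((E.powerset.filter fun F => ¬ GoodF L F).card : ℝ) *
          (2 * B * ((E.card : ℝ) + 2) ^ 2)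
        ≤ (B : ℝ) * ((c : ℝ) ^ 2 * t ^ 2 * ((3 / 4) ^ (t - 2) * 2 ^ E.card)) *
          (2 * B * (3 * (c : ℝ) ^ 2 * t ^ 2) ^ 2) := by gcongr
      _ = ((B : ℝ) * c ^ 2 * (2 * B * (3 * c ^ 2) ^ 2) * t ^ 6 * (3 / 4) ^ (t - 2)) *
          2 ^ E.card := by ring
      _ < (1 : ℝ) * 2 ^ E.card := mul_lt_mul_of_pos_right h3 (by positivity)
      _ = _ := one_mul _
  have hshift := hN0 E.card (by omega) (U1 (Fin s) (Fin k)) (U0 (Fin s) (Fin k)) rk bad.card
    (fun j => ((C.filter fun p => ((sz p : ℕ) : ℤ) = j).card : ℝ)) i hU01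
    ⟨(fun _ => {L.l0}, false), mem_U0.2 ⟨fun _ => singleton_ne_empty _, rfl⟩⟩ hB.ge
    (fun u _ => rk_le u) (mean_gap (by simpa using hk) (by simpa using hs))
    (Nat.cast_nonneg _) hbadc
    (fun j => by
      rw [← card_level]
      exact_mod_cast card_le_card (filter_subset_filter _ (filter_subset _ _)))
    (fun j => by
      rw [← card_level]
      have : (Ω.filter fun p => ((sz p : ℕ) : ℤ) = j) ⊆
          (C.filter fun p => ((sz p : ℕ) : ℤ) = j) ∪ bad := by
        intro p hp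
        obtain ⟨g1, g2⟩ := mem_filter.1 hp
        rcases hsplit p g1 with g | g
        · exact mem_union_left _ (mem_filter.2 ⟨g, g2⟩)
        · exact mem_union_right _ g
      exact_mod_cast (card_le_card this).trans (card_union_le _ _))
    (fun j => by
      have e : (C.filter fun p => ((sz p : ℕ) : ℤ) = (i : ℤ)) = C.filter fun p => sz p = i :=
        filter_congr fun p _ => Nat.cast_inj
      rw [e]
      refine Nat.cast_le.2 ((card_le_card fun p hp => ?_).trans (hmax j.toNat))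
      obtain ⟨g1, g2⟩ := mem_filter.1 hp
      exact mem_filter.2 ⟨g1, by omega⟩)
  rw [← card_level, ← card_level] at hshift
  have hshift' : (Ω0.filter fun p => ((sz p : ℕ) : ℤ) = (i : ℤ)).card + bad.card <
      (Ω0.filter fun p => ((sz p : ℕ) : ℤ) = (i : ℤ) + 1).card := by exact_mod_cast hshift
  set A1 := C.filter fun p => p.1.2 = true ∧ sz p = i with hA1
  set A2 := C.filter fun p => p.1.2 = false ∧ sz p = i + 1 with hA2
  have c1 : (C.filter fun p => sz p = i).card ≤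
      A1.card + (Ω0.filter fun p => ((sz p : ℕ) : ℤ) = (i : ℤ)).card := by
    refine (card_le_card fun p hp => ?_).trans (card_union_le _ _)
    obtain ⟨g1, g2⟩ := mem_filter.1 hp
    by_cases g3 : p.1.2 = true
    · exact mem_union_left _ (mem_filter.2 ⟨g1, g3, g2⟩)
    · obtain ⟨g4, g5⟩ := mem_product.1 (mem_filter.1 g1).1
      refine mem_union_right _ (mem_filter.2 ⟨mem_product.2 ⟨mem_U0.2 ⟨?_, by simpa using g3⟩, g5⟩,
        by rw [g2]⟩)
      exact (mem_U1.1 g4).resolve_right fun h => g3 h.1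
  have c2 : (Ω0.filter fun p => ((sz p : ℕ) : ℤ) = (i : ℤ) + 1).card ≤ A2.card + bad.card := by
    refine (card_le_card fun p hp => ?_).trans (card_union_le _ _)
    obtain ⟨g1, g2⟩ := mem_filter.1 hp
    rcases hsplit p (hΩ01 g1) with g | g
    · exact mem_union_left _ (mem_filter.2 ⟨g, (mem_U0.1 (mem_product.1 g1).1).2, by omega⟩)
    · exact mem_union_right _ g
  have hdisj : Disjoint A1 A2 := disjoint_left.2 fun p h1 h2 => by
    have g1 := (mem_filter.1 h1).2.1
    rw [(mem_filter.1 h2).2.1] at g1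
    exact Bool.false_ne_true g1
  have hAC : ∀ p ∈ A1 ∪ A2, p ∈ C := fun p hp =>
    (mem_union.1 hp).elim (fun h => (mem_filter.1 h).1) fun h => (mem_filter.1 h).1
  have hanti : ∀ p ∈ A1 ∪ A2, ∀ q ∈ A1 ∪ A2, sub L p.1 p.2 ≤ sub L q.1 q.2 → p = q := by
    intro p hp q hq hle
    obtain ⟨g1, g2⟩ := of_sub_le (hF p (mem_filter.1 (hAC p hp)).1)
      (hF q (mem_filter.1 (hAC q hq)).1) hle
    have g3 := card_le_card g1
    have g4 := card_le_card g2
    have g5 : sz q ≤ sz p := by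
      rcases mem_union.1 hp with h1 | h1 <;> rcases mem_union.1 hq with h2 | h2
      · rw [(mem_filter.1 h1).2.2, (mem_filter.1 h2).2.2]
      · have := none_mem_pk.1 (g1 (none_mem_pk.2 (mem_filter.1 h1).2.1))
        rw [(mem_filter.1 h2).2.1] at this
        exact absurd this Bool.false_ne_true
      · rw [(mem_filter.1 h1).2.2, (mem_filter.1 h2).2.2]
        omega
      · rw [(mem_filter.1 h1).2.2, (mem_filter.1 h2).2.2]
    simp only [hsz, ← card_pk] at g5
    exact Prod.ext (pk_inj (eq_of_subset_of_card_le g1 (by omega)))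
      (eq_of_subset_of_card_le g2 (by omega))
  refine ⟨(fun p : TD s k × Finset (Sym2 (V)) => sub L p.1 p.2) ''
    ((A1 ∪ A2 : Finset (TD s k × Finset (Sym2 (V)))) :
      Set (TD s k × Finset (Sym2 (V)))), ?_, ?_, fun j => ?_⟩
  · rintro _ ⟨p, hp, rfl⟩
    obtain ⟨g1, g2⟩ := mem_filter.1 (hAC p hp)
    exact ⟨sub_le_tube (hF p g1), g2⟩
  · rintro _ ⟨p, hp, rfl⟩ _ ⟨q, hq, rfl⟩ hne hle
    exact hne (by rw [hanti p hp q hq hle])
  · rw [Set.InjOn.ncard_image fun p hp q hq e => hanti p hp q hq (le_of_eq e),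
      Set.ncard_coe_finset, card_union_of_disjoint hdisj]
    have hsub : {H : SimpleGraph (V) |
        H ≤ tube L ∧ H.Connected ∧ H.edgeSet.ncard = j} ⊆
        (fun p : TD s k × Finset (Sym2 (V)) => sub L p.1 p.2) ''
          ((C.filter fun p => sz p = j : Finset (TD s k × Finset (Sym2 (V)))) :
            Set (TD s k × Finset (Sym2 (V)))) := by
      rintro H ⟨h1, h2, h3⟩
      obtain ⟨d, F, hF', rfl⟩ := exists_sub h1
      rw [ncard_sub hF'] at h3
      exact ⟨(d, F), mem_coe.2 (mem_filter.2 ⟨mem_filter.2 ⟨mem_product.2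
        ⟨mem_U1_of_connected hF' h2, mem_powerset.2 hF'⟩, h2⟩, h3⟩), rfl⟩
    have h1 := (Set.ncard_le_ncard hsub (Set.toFinite _)).trans
      (Set.ncard_image_le (Finset.finite_toSet _))
    rw [Set.ncard_coe_finset] at h1
    have h2 := hmax j
    omega

/-- The layers of `Fin n` are the residue classes modulo `s + 1`. -/
def modLay {n s k : ℕ} (l0 : Fin k) (hs : 2 ≤ s) (hn : (s + 1) * k ≤ n) : Lay (Fin n) s k where
  π := fun v => ⟨v % (s + 1), Nat.mod_lt _ (Nat.succ_pos s)⟩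
  z := fun i l => ⟨i + (s + 1) * l, by
    have h1 : (s + 1) * (l + 1) ≤ (s + 1) * k := Nat.mul_le_mul_left _ l.2
    have h2 := i.2
    rw [mul_add] at h1
    omega⟩
  l0 := l0
  hπ := fun i l => Fin.ext (by
    change ((i : ℕ) + (s + 1) * l) % (s + 1) = i
    rw [Nat.add_mul_mod_self_left, Nat.mod_eq_of_lt i.2])
  hz := fun i l i' l' h => Fin.ext (by
    have h1 : (i : ℕ) + (s + 1) * l = i' + (s + 1) * l' := congrArg Fin.val h
    have h2 := congrArg (· / (s + 1)) h1
    simp only [Nat.add_mul_div_left _ _ (Nat.succ_pos s), Nat.div_eq_of_lt i.2,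
      Nat.div_eq_of_lt i'.2] at h2
    omega)
  hs := hs

theorem modLay_card {n s k : ℕ} (l0 : Fin k) (hs : 2 ≤ s) (hn : (s + 1) * k ≤ n) {t : ℕ}
    (ht : (s + 1) * t ≤ n) (i : Fin (s + 1)) :
    t ≤ (univ.filter fun v => (modLay l0 hs hn).π v = i).card := by
  have hb : ∀ a : Fin t, (i : ℕ) + (s + 1) * a < n := by
    intro a
    have h1 : (s + 1) * (a + 1) ≤ (s + 1) * t := Nat.mul_le_mul_left _ a.2
    have h2 := i.2
    rw [mul_add] at h1
    omega
  have := card_le_card_of_injOn (s := (univ : Finset (Fin t)))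
    (t := univ.filter fun v => (modLay l0 hs hn).π v = i)
    (fun a => (⟨i + (s + 1) * a, hb a⟩ : Fin n))
    (fun a _ => mem_coe.2 (mem_filter.2 ⟨mem_univ _, Fin.ext (by
      change ((i : ℕ) + (s + 1) * a) % (s + 1) = i
      rw [Nat.add_mul_mod_self_left, Nat.mod_eq_of_lt i.2])⟩))
    (fun a _ a' _ h => Fin.ext (by
      have h1 : (i : ℕ) + (s + 1) * a = i + (s + 1) * a' := congrArg Fin.val h
      exact Nat.eq_of_mul_eq_mul_left (Nat.succ_pos s) (Nat.add_left_cancel h1)))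
  simpa using this

end Pool.Agent.Lib.MP_662923_co
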